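import Pool.Agent.Y831.RC5.Avg5
import Pool.Agent.Y831.RC.Run

set_option autoImplicit false
set_option linter.unusedVariables false

/-! # Frequency of long runs of integers with small prime factors, full range -/

namespace Pool.Agent.Y831.RC

open Finset Filter Pool.Agent.H256R2.SC

open scoped Classical

theorem ev_T5 (t e₀ K : ℝ) (ht : 0 < t) (ht1 : t < 1) : ∃ T₀ : ℝ, ∀ T : ℝ, T₀ ≤ T →
    1 ≤ T ∧ e₀ ≤ (1 - t) * Real.log T ∧ 1 ≤ (1 - t) * Real.log T ∧
    ((1 - t) * Real.log T) ^ 2 * Real.exp ((1 - t) * Real.log T) + K ≤ T := by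
  have h1t : 0 < 1 - t := by linarith
  have h0 : ∀ᶠ T : ℝ in atTop, 1 ≤ T := eventually_ge_atTop _
  have h1 : ∀ᶠ T : ℝ in atTop, e₀ ≤ (1 - t) * Real.log T := by
    filter_upwards [Real.tendsto_log_atTop.eventually_ge_atTop (e₀ / (1 - t))] with T hT
    rw [div_le_iff₀ h1t] at hT
    linarith
  have h2 : ∀ᶠ T : ℝ in atTop, 1 ≤ (1 - t) * Real.log T := by
    filter_upwards [Real.tendsto_log_atTop.eventually_ge_atTop (1 / (1 - t))] with T hT
    rw [div_le_iff₀ h1t] at hT
    linarith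
  have h3 : ∀ᶠ T : ℝ in atTop, 2 * (Real.log T) ^ (2:ℝ) ≤ T ^ t := by
    have e1 : (fun L : ℝ => (Real.log L) ^ (2:ℝ)) =o[atTop] (fun L : ℝ => L ^ t) :=
      isLittleO_log_rpow_rpow_atTop 2 ht
    have e2 := e1.def (show (0:ℝ) < 1 / 2 by positivity)
    filter_upwards [e2, eventually_ge_atTop (1:ℝ)] with L hL hL1
    have hl0 := Real.log_nonneg hL1
    rw [Real.norm_eq_abs, Real.norm_eq_abs, abs_of_nonneg (Real.rpow_nonneg hl0 _),
      abs_of_nonneg (Real.rpow_nonneg (by linarith) _)] at hL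
    linarith
  have h4 : ∀ᶠ T : ℝ in atTop, 2 * K ≤ T := eventually_ge_atTop _
  obtain ⟨T₀, hT₀⟩ := Filter.eventually_atTop.1 (h0.and (h1.and (h2.and (h3.and h4))))
  refine ⟨T₀, fun T hT => ?_⟩
  obtain ⟨g0, g1, g2, g3, g4⟩ := hT₀ T hT
  refine ⟨g0, g1, g2, ?_⟩
  have hT0 : 0 < T := by linarith
  have hl0 : 0 ≤ Real.log T := Real.log_nonneg g0
  rw [Real.rpow_two] at g3
  have e1 : Real.exp ((1 - t) * Real.log T) = T ^ (1 - t) := by
    rw [Real.rpow_def_of_pos hT0, mul_comm]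
  have e2 : ((1 - t) * Real.log T) ^ 2 ≤ (Real.log T) ^ 2 := by
    apply pow_le_pow_left₀ (by positivity)
    nlinarith
  have e3 : 0 < T ^ (1 - t) := Real.rpow_pos_of_pos hT0 _
  have e4 : T ^ t * T ^ (1 - t) = T := by
    rw [← Real.rpow_add hT0]
    have : t + (1 - t) = 1 := by ring
    rw [this, Real.rpow_one]
  rw [e1]
  have e5 : 2 * (Real.log T) ^ 2 * T ^ (1 - t) ≤ T ^ t * T ^ (1 - t) :=
    mul_le_mul_of_nonneg_right g3 e3.le
  have e6 : ((1 - t) * Real.log T) ^ 2 * T ^ (1 - t) ≤ (Real.log T) ^ 2 * T ^ (1 - t) :=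
    mul_le_mul_of_nonneg_right e2 e3.le
  rw [e4] at e5
  linarith

theorem q_tδ {t δ e : ℝ} (ht : 0 < t) (ht8 : t ≤ 1 / 8) (hδ : t ≤ δ) (he : 1 ≤ e) :
    t ^ 2 ≤ δ * (100 * e) := by
  have h1 : t ^ 2 ≤ t := by nlinarith
  have h2 : δ * 1 ≤ δ * (100 * e) := mul_le_mul_of_nonneg_left (by linarith) (by linarith)
  linarith

theorem q_fin {t X F P N : ℝ} (ht : 0 < t) (hX : 0 < X) (hF : 4 * F ≤ X) (hP : 4 * P ≤ X) :
    3 * t / 64 * X ≤ 3 * t / 16 * ((X - F) - P) := by
  have h1 : X / 4 ≤ (X - F) - P := by linarith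
  have h2 := mul_le_mul_of_nonneg_left h1 (show 0 ≤ 3 * t / 16 by positivity)
  linarith

theorem q_aux (t A B l : ℝ) (hA : 0 < A) (h : l = A + -B) :
    (1 + t) * l / A = (1 + t) * (1 + (-B) / A) := by
  rw [h]
  field_simp

theorem ev_A5 (t CR : ℝ) (ht : 0 < t) (ht8 : t ≤ 1 / 8) : ∃ L₀ : ℝ, ∀ L : ℝ, L₀ ≤ L →
    1 ≤ L ∧ 1 ≤ Real.log L ∧ 2 ≤ t / 8 * L ∧ L * Real.log L ≤ L ^ (1 + t) ∧
    (1 + t) * Real.log L / Real.log (t / 8 * L) * Real.exp (CR / Real.log (t / 8 * L)) ≤
      (1 + t) ^ 2 ∧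
    4 * (L * Real.log L) ≤ Real.exp L ∧
    Real.exp ((1 - t) * L) + 1 ≤ 1 / 2 * Real.exp ((1 - t / 4) * L) ∧
    4 * Real.exp (t / 4 * L) ≤ Real.exp L := by
  have t1 := Real.tendsto_log_atTop
  have h0 : ∀ᶠ L : ℝ in atTop, 1 ≤ L := eventually_ge_atTop _
  have h1 : ∀ᶠ L : ℝ in atTop, 1 ≤ Real.log L := t1.eventually_ge_atTop _
  have h2 : ∀ᶠ L : ℝ in atTop, 2 ≤ t / 8 * L := by
    filter_upwards [eventually_ge_atTop (16 / t)] with L hL
    rw [div_le_iff₀ ht] at hL
    linarith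
  have h3 : ∀ᶠ L : ℝ in atTop, L * Real.log L ≤ L ^ (1 + t) := by
    have e1 : (fun L : ℝ => Real.log L) =o[atTop] (fun L : ℝ => L ^ t) :=
      isLittleO_log_rpow_atTop ht
    have e2 := e1.def (show (0:ℝ) < 1 by positivity)
    filter_upwards [e2, eventually_ge_atTop (1:ℝ)] with L hL hL1
    have hl0 := Real.log_nonneg hL1
    rw [Real.norm_eq_abs, Real.norm_eq_abs, abs_of_nonneg hl0,
      abs_of_nonneg (Real.rpow_nonneg (by linarith) _), one_mul] at hL
    rw [Real.rpow_add (by linarith), Real.rpow_one]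
    exact mul_le_mul_of_nonneg_left hL (by linarith)
  have h4 : ∀ᶠ L : ℝ in atTop,
      (1 + t) * Real.log L / Real.log (t / 8 * L) * Real.exp (CR / Real.log (t / 8 * L)) ≤
      (1 + t) ^ 2 := by
    have a0 : Tendsto (fun L : ℝ => t / 8 * L) atTop atTop :=
      Filter.Tendsto.const_mul_atTop (by positivity) Filter.tendsto_id
    have a1 : Tendsto (fun L : ℝ => Real.log (t / 8 * L)) atTop atTop := t1.comp a0
    have a2 : Tendsto (fun L : ℝ => Real.exp (CR / Real.log (t / 8 * L))) atTop (nhds 1) := by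
      have := (Real.continuous_exp.tendsto 0).comp (a1.const_div_atTop CR)
      rw [Real.exp_zero] at this
      exact this
    have a3 : Tendsto (fun L : ℝ => 1 + (- Real.log (t / 8)) / Real.log (t / 8 * L)) atTop
        (nhds (1 + 0)) := tendsto_const_nhds.add (a1.const_div_atTop _)
    have a4 := (a3.const_mul (1 + t)).mul a2
    have a5 : (1 + t) * (1 + 0) * 1 < (1 + t) ^ 2 := by nlinarith
    have a6 := a4.eventually (gt_mem_nhds a5)
    filter_upwards [a6, eventually_gt_atTop (0:ℝ), a1.eventually_gt_atTop 0] with L hL hL0 hl0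
    have e1 : Real.log L = Real.log (t / 8 * L) + -Real.log (t / 8) := by
      rw [Real.log_mul (by positivity) hL0.ne']
      ring
    have e2 : (1 + t) * Real.log L / Real.log (t / 8 * L) =
        (1 + t) * (1 + (- Real.log (t / 8)) / Real.log (t / 8 * L)) := q_aux t _ _ _ hl0 e1
    rw [e2]
    exact hL.le
  have h5 : ∀ᶠ L : ℝ in atTop, 4 * (L * Real.log L) ≤ Real.exp L := by
    have e1 := (Real.isLittleO_pow_exp_atTop (n := 2)).def (show (0:ℝ) < 1 / 4 by positivity)
    filter_upwards [e1, eventually_ge_atTop (1:ℝ)] with L hL hL1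
    rw [Real.norm_of_nonneg (by positivity), Real.norm_of_nonneg (Real.exp_pos L).le] at hL
    have e2 : Real.log L ≤ L := (Real.log_le_sub_one_of_pos (by linarith)).trans (by linarith)
    have e3 : L * Real.log L ≤ L * L := mul_le_mul_of_nonneg_left e2 (by linarith)
    nlinarith
  have h6 : ∀ᶠ L : ℝ in atTop,
      Real.exp ((1 - t) * L) + 1 ≤ 1 / 2 * Real.exp ((1 - t / 4) * L) := by
    have a0 : Tendsto (fun L : ℝ => 3 * t / 4 * L) atTop atTop :=
      Filter.Tendsto.const_mul_atTop (by positivity) Filter.tendsto_id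
    have a1 := Real.tendsto_exp_atTop.comp a0
    filter_upwards [a1.eventually_ge_atTop 4, eventually_ge_atTop (0:ℝ)] with L hL hL0
    have e1 : Real.exp ((1 - t / 4) * L) = Real.exp ((1 - t) * L) * Real.exp (3 * t / 4 * L) := by
      rw [← Real.exp_add]; congr 1; ring
    have e2 : 1 ≤ Real.exp ((1 - t) * L) := Real.one_le_exp (by
      have : 0 ≤ 1 - t := by linarith
      positivity)
    have e3 : 4 ≤ Real.exp (3 * t / 4 * L) := hL
    rw [e1]
    nlinarith
  have h7 : ∀ᶠ L : ℝ in atTop, 4 * Real.exp (t / 4 * L) ≤ Real.exp L := by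
    filter_upwards [eventually_ge_atTop (8:ℝ)] with L hL
    have e1 : Real.exp L = Real.exp (t / 4 * L) * Real.exp ((1 - t / 4) * L) := by
      rw [← Real.exp_add]; congr 1; ring
    have e2 : 4 ≤ Real.exp ((1 - t / 4) * L) := by
      have e3 := Real.add_one_le_exp ((1 - t / 4) * L)
      nlinarith
    have e3 := Real.exp_pos (t / 4 * L)
    rw [e1]
    nlinarith
  exact Filter.eventually_atTop.1
    (h0.and (h1.and (h2.and (h3.and (h4.and (h5.and (h6.and h7)))))))

/-- in every interval of length `X` there are at least `X exp (- T)` starting points of runs of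
`c log X log T` integers with a prime factor at most `X^δ`, if `c < 1 / 2`, uniformly for
`T₀ ≤ T ≤ log X` -/
theorem abund5 (c δ : ℝ) (hc : 0 < c) (hc2 : c < 1 / 2) (hδ : 0 < δ) :
    ∃ T₀ X₀ : ℝ, ∀ X : ℝ, X₀ ≤ X → ∀ T : ℝ, T₀ ≤ T → T ≤ Real.log X → ∀ M : ℝ,
      X * Real.exp (-T) ≤
        ((RunSet M X (c * (Real.log X * Real.log T)) (X ^ δ)).ncard : ℝ) := by
  obtain ⟨t, ht, ht8, htδ, htc⟩ : ∃ t : ℝ, 0 < t ∧ t ≤ 1 / 8 ∧ t ≤ δ ∧
      (1 + t) * (1 + t) ^ 2 * c ≤ (1 / 2 - 3 * t) * (1 - t) := by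
    refine ⟨min (1 / 8) (min δ ((1 / 2 - c) / 8)), ?_, min_le_left _ _, ?_, ?_⟩
    · exact lt_min (by norm_num) (lt_min hδ (by linarith))
    · exact (min_le_right _ _).trans (min_le_left _ _)
    · set t := min (1 / 8) (min δ ((1 / 2 - c) / 8)) with ht
      have h1 : t ≤ (1 / 2 - c) / 8 := (min_le_right _ _).trans (min_le_right _ _)
      have h2 : t ≤ 1 / 8 := min_le_left _ _
      have h3 : 0 < t := lt_min (by norm_num) (lt_min hδ (by linarith))
      have h4 : (1 + t) * (1 + t) ^ 2 ≤ 1 + 4 * t := by nlinarith [sq_nonneg t]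
      have h5 : (1 + t) * (1 + t) ^ 2 * c ≤ (1 + 4 * t) * c := mul_le_mul_of_nonneg_right h4 hc.le
      have h6 : (1 + 4 * t) * c ≤ c + 2 * t := by nlinarith
      have h7 : 1 / 2 - 4 * t ≤ (1 / 2 - 3 * t) * (1 - t) := by nlinarith
      linarith
  obtain ⟨e₀, X₁, hcov⟩ := cov5 t ht ht8
  obtain ⟨CR, hCR0, hWR⟩ := WW_ratio
  obtain ⟨T₀, hT₀⟩ := ev_T5 t e₀ (Real.log (64 / (3 * t))) ht (by linarith)
  obtain ⟨L₀, hL₀⟩ := ev_A5 t CR ht ht8
  refine ⟨T₀, max X₁ (Real.exp L₀), fun X hX T hT hTL M => ?_⟩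
  have hX1 : X₁ ≤ X := (le_max_left _ _).trans hX
  have hXe : Real.exp L₀ ≤ X := (le_max_right _ _).trans hX
  have hX0 : 0 < X := lt_of_lt_of_le (Real.exp_pos _) hXe
  have hLL : L₀ ≤ Real.log X := by
    rw [Real.le_log_iff_exp_le hX0]
    exact hXe
  obtain ⟨g0, g1, g2, g3⟩ := hT₀ T hT
  obtain ⟨k0, k1, k2, k3, k4, k5, k6, k7⟩ := hL₀ (Real.log X) hLL
  have hc5 := hcov X hX1 ((1 - t) * Real.log T) g1 (by
    apply mul_le_mul_of_nonneg_left _ (by linarith)
    exact Real.log_le_log (by linarith) hTL)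
  have hXL : Real.exp (Real.log X) = X := Real.exp_log hX0
  set L := Real.log X with hL
  set l := Real.log L with hl
  set e := (1 - t) * Real.log T with he
  have hL0 : 0 < L := by linarith
  have hlT0 : 0 ≤ Real.log T := Real.log_nonneg g0
  have hlTl : Real.log T ≤ l := Real.log_le_log (by linarith) hTL
  set F := c * (L * Real.log T) with hF
  have hF0 : 0 ≤ F := by positivity
  have hLl0 : 0 ≤ L * l := by positivity
  have hFLl : F ≤ L * l := by
    have e1 : L * Real.log T ≤ L * l := mul_le_mul_of_nonneg_left hlTl hL0.le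
    have e2 : 0 ≤ L * Real.log T := by positivity
    have e3 : c * (L * Real.log T) ≤ 1 * (L * Real.log T) :=
      mul_le_mul_of_nonneg_right (by linarith only [hc2]) e2
    rw [hF]
    linarith only [e1, e3]
  set w := L ^ (1 + t) with hw
  have hw0 : 0 < w := Real.rpow_pos_of_pos hL0 _
  have hlw : Real.log w = (1 + t) * l := by rw [hw, Real.log_rpow hL0]
  have hFw : F ≤ w := hFLl.trans k3
  set x := t / 8 * L with hx
  have hx0 : 0 ≤ x := by positivity
  have hxL : x ≤ L := by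
    have : t / 8 * L ≤ 1 * L := mul_le_mul_of_nonneg_right (by linarith only [ht8]) hL0.le
    rw [hx]
    linarith only [this]
  have hxw : x ≤ w := by
    refine le_trans ?_ k3
    have : L * 1 ≤ L * l := mul_le_mul_of_nonneg_left k1 hL0.le
    linarith only [this, hxL]
  set P : ℕ := primorial ⌊x⌋₊ with hP
  have hPpos : 0 < P := primorial_pos _
  have hPr : (0:ℝ) < P := by exact_mod_cast hPpos
  have hPx : (P:ℝ) ≤ Real.exp (t / 4 * L) := by
    refine (primorial_le_exp x hx0).trans ?_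
    apply Real.exp_le_exp.2
    rw [hx]
    linarith
  have hPX : 4 * (P:ℝ) ≤ X := by
    rw [← hXL]
    linarith only [hPx, k7]
  have hFX : 4 * F ≤ X := by
    rw [← hXL]
    linarith only [hFLl, k5]
  -- the sizes
  set S := F * WW x with hS
  set f : ℕ → ℕ := fun b => ((Icc 1 ⌊F⌋₊).filter (fun k => P.Coprime (b + k))).card with hf
  have hlog1 : 1 ≤ Real.log T := by
    have : 0 ≤ t * Real.log T := by positivity
    linarith only [this, g2]
  have hFpos : 0 < F := by positivity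
  have hS0 : 0 < S := mul_pos hFpos (WW_pos x)
  have hsum : ((∑ b ∈ range P, f b : ℕ) : ℝ) ≤ P * S := by
    simp only [hf]
    rw [class_sum P ⌊F⌋₊]
    push_cast
    rw [hP, tot_prim x, ← hP, hS]
    have e1 : (⌊F⌋₊ : ℝ) ≤ F := Nat.floor_le hF0
    have e2 : 0 ≤ (P:ℝ) * WW x := by
      have := WW_pos x
      positivity
    calc (⌊F⌋₊ : ℝ) * ((P:ℝ) * WW x) ≤ F * ((P:ℝ) * WW x) := mul_le_mul_of_nonneg_right e1 e2
      _ = _ := by ring
  have hgood := good_card P f S t ht hS0 hsum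
  set G := (range P).filter (fun b => (f b : ℝ) ≤ (1 + t) * S) with hG
  have hWx : WW x ≤ (1 + t) ^ 2 * WW w := by
    have e1 := hWR x w k2 hxw
    rw [hlw] at e1
    have e2 : WW w * ((1 + t) * l / Real.log x) * Real.exp (CR / Real.log x) =
        ((1 + t) * l / Real.log x * Real.exp (CR / Real.log x)) * WW w := by ring
    rw [e2] at e1
    exact e1.trans (mul_le_mul_of_nonneg_right k4 (WW_pos w).le)
  have hbound : (1 + t) * S ≤ (1 / 2 - 3 * t) * (e * L * WW w) := by
    have e1 : S ≤ F * ((1 + t) ^ 2 * WW w) := mul_le_mul_of_nonneg_left hWx hF0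
    have e2 : (1 + t) * S ≤ (1 + t) * (F * ((1 + t) ^ 2 * WW w)) :=
      mul_le_mul_of_nonneg_left e1 (by linarith)
    have e3 : 0 ≤ L * Real.log T * WW w := by
      have := WW_pos w
      positivity
    have e4 := mul_le_mul_of_nonneg_right htc e3
    calc (1 + t) * S ≤ (1 + t) * (F * ((1 + t) ^ 2 * WW w)) := e2
      _ = (1 + t) * (1 + t) ^ 2 * c * (L * Real.log T * WW w) := by rw [hF]; ring
      _ ≤ (1 / 2 - 3 * t) * (1 - t) * (L * Real.log T * WW w) := e4
      _ = _ := by rw [he]; ring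
  set R : Finset ℤ := (RunSet_finite M X F (X ^ δ) hF0).toFinset with hR
  have hXδ : X ^ δ = Real.exp (δ * L) := by
    rw [Real.rpow_def_of_pos hX0, mul_comm]
  have hy : Real.exp (t ^ 2 * L / (100 * e)) ≤ X ^ δ := by
    rw [hXδ]
    apply Real.exp_le_exp.2
    have he0 : 0 < 100 * e := by linarith only [g2]
    rw [div_le_iff₀ he0]
    have e1 : t ^ 2 ≤ δ * (100 * e) := q_tδ ht ht8 htδ g2
    have e2 := mul_le_mul_of_nonneg_right e1 hL0.le
    linarith only [e2]
  have hxy : x ≤ X ^ δ := by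
    rw [hXδ]
    have e1 := Real.add_one_le_exp (δ * L)
    have e2 : x ≤ δ * L := by
      rw [hx]
      apply mul_le_mul_of_nonneg_right _ hL0.le
      linarith only [htδ, ht]
    linarith only [e1, e2]
  have hlen : Real.exp ((1 - t) * L) ≤ (X - F) / (P : ℝ) - 1 := by
    have e1 : X / 2 ≤ X - F := by linarith only [hFX, hX0]
    have e2 : 1 / 2 * Real.exp ((1 - t / 4) * L) ≤ (X - F) / P := by
      rw [le_div_iff₀ hPr]
      have e3 : Real.exp ((1 - t / 4) * L) * Real.exp (t / 4 * L) = X := by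
        rw [← Real.exp_add, ← hXL]
        congr 1
        ring
      have e4 : Real.exp ((1 - t / 4) * L) * P ≤ X := by
        rw [← e3]
        exact mul_le_mul_of_nonneg_left hPx (Real.exp_pos _).le
      linarith only [e1, e4]
    linarith only [e2, k6]
  have hclass : ∀ b ∈ G, 3 / 8 * ((X - F) / (P : ℝ) - 1) ≤
      ((R.filter (fun n : ℤ => (P : ℤ) ∣ n - b)).card : ℝ) *
        Real.exp (e ^ 2 * Real.exp e) := by
    intro b hb
    have hb1 := (Finset.mem_filter.1 hb).2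
    exact class_cnt w (Real.exp (t ^ 2 * L / (100 * e))) (X ^ δ) x F
      (Real.exp (e ^ 2 * Real.exp e)) (Real.exp ((1 - t) * L)) X M b hx0 hxw hF0 hFw hy hxy
      (Real.exp_pos _).le
      (hc5 ((Icc 1 ⌊F⌋₊).filter (fun k => (primorial ⌊x⌋₊).Coprime (b + k))) (by
        have e1 : (Fintype.card ((Icc 1 ⌊F⌋₊).filter
            (fun k => (primorial ⌊x⌋₊).Coprime (b + k))) : ℝ) = (f b : ℝ) := by
          simp only [hf, Fintype.card_coe]
          rfl
        rw [e1]
        exact hb1.trans hbound)) hlen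
  have hfinal := classes_cnt R P hPpos G (Finset.filter_subset _ _) _ _ hclass (Real.exp_pos _).le
  have hcardR : (R.card : ℝ) = ((RunSet M X F (X ^ δ)).ncard : ℝ) := by
    rw [hR, Set.ncard_eq_toFinset_card _ (RunSet_finite M X F (X ^ δ) hF0)]
  rw [hcardR] at hfinal
  have hv0 : 0 ≤ 3 / 8 * ((X - F) / (P : ℝ) - 1) := by
    have := Real.exp_pos ((1 - t) * L)
    linarith only [this, hlen]
  have hGt : t / 2 * P ≤ G.card := by
    refine le_trans ?_ hgood
    apply mul_le_mul_of_nonneg_right _ hPr.le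
    have h1t : 0 < 1 + t := by linarith only [ht]
    rw [div_le_div_iff₀ (by norm_num) h1t]
    have : t * t ≤ t * 1 := mul_le_mul_of_nonneg_left (by linarith only [ht8]) ht.le
    linarith only [this]
  have h1 : 3 * t / 64 * X ≤ G.card * (3 / 8 * ((X - F) / (P : ℝ) - 1)) := by
    have e1 := mul_le_mul_of_nonneg_right hGt hv0
    refine le_trans ?_ e1
    have e2 : t / 2 * P * (3 / 8 * ((X - F) / (P : ℝ) - 1)) = 3 * t / 16 * ((X - F) - P) := by
      field_simp
      ring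
    rw [e2]
    exact q_fin (N := 0) ht hX0 hFX hPX
  have h2 : 3 * t / 64 * X ≤ ((RunSet M X F (X ^ δ)).ncard : ℝ) * Real.exp (e ^ 2 * Real.exp e) :=
    h1.trans hfinal
  have h3 : X * Real.exp (-T) * Real.exp (e ^ 2 * Real.exp e) ≤ 3 * t / 64 * X := by
    have e1 : Real.exp (-T) * Real.exp (e ^ 2 * Real.exp e) ≤ 3 * t / 64 := by
      rw [← Real.exp_add]
      have e2 : -T + e ^ 2 * Real.exp e ≤ -Real.log (64 / (3 * t)) := by linarith
      refine (Real.exp_le_exp.2 e2).trans (le_of_eq ?_)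
      rw [Real.exp_neg, Real.exp_log (by positivity)]
      field_simp
    calc X * Real.exp (-T) * Real.exp (e ^ 2 * Real.exp e) =
          (Real.exp (-T) * Real.exp (e ^ 2 * Real.exp e)) * X := by ring
      _ ≤ 3 * t / 64 * X := mul_le_mul_of_nonneg_right e1 hX0.le
  exact le_of_mul_le_mul_right (h3.trans h2) (Real.exp_pos _)

end Pool.Agent.Y831.RC
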