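import Pool.Agent.Y831.RC5.Cov5b
import Pool.Agent.Y831.RC3.RunCnt

set_option autoImplicit false
set_option linter.unusedVariables false

/-! # Averaging over the classes modulo the small primes -/

namespace Pool.Agent.Y831.RC

open Finset Filter Pool.Agent.H256R2.SC

open scoped Classical

/-- the totient of the primorial -/
theorem tot_prim (x : ℝ) :
    ((primorial ⌊x⌋₊).totient : ℝ) = (primorial ⌊x⌋₊ : ℝ) * WW x := by
  have h := Nat.totient_eq_mul_prod_factors (primorial ⌊x⌋₊)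
  rw [primeFactors_primorial] at h
  have h2 : (((primorial ⌊x⌋₊).totient : ℚ) : ℝ) =
      (((primorial ⌊x⌋₊ : ℚ) * ∏ p ∈ Nat.primesLE ⌊x⌋₊, (1 - (p : ℚ)⁻¹) : ℚ) : ℝ) := by
    rw [h]
  push_cast at h2
  rw [h2]
  congr 1
  unfold WW
  apply Finset.prod_congr
  · ext p
    rw [Nat.mem_primesLE, Finset.mem_filter, Finset.mem_Icc]
    constructor
    · rintro ⟨h1, h2⟩
      exact ⟨⟨h2.one_le, h1⟩, h2⟩
    · rintro ⟨⟨_, h1⟩, h2⟩
      exact ⟨h1, h2⟩
  · intro p _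
    rw [one_div]

theorem class_sum (P N : ℕ) :
    ∑ b ∈ range P, ((Icc 1 N).filter (fun k => P.Coprime (b + k))).card = N * P.totient := by
  have h1 : ∀ b, ((Icc 1 N).filter (fun k => P.Coprime (b + k))).card =
      ∑ k ∈ Icc 1 N, if P.Coprime (b + k) then 1 else 0 := by
    intro b
    rw [Finset.card_filter]
  rw [Finset.sum_congr rfl fun b _ => h1 b, Finset.sum_comm]
  have h2 : ∀ k ∈ Icc 1 N, ∑ b ∈ range P, (if P.Coprime (b + k) then 1 else 0) = P.totient := by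
    intro k _
    rw [← Nat.filter_coprime_Ico_eq_totient P k, ← Finset.card_filter]
    apply Finset.card_bij (fun b _ => b + k)
    · intro b hb
      rw [Finset.mem_filter, Finset.mem_range] at hb
      rw [Finset.mem_filter, Finset.mem_Ico]
      exact ⟨⟨by omega, by omega⟩, hb.2⟩
    · intro b _ b' _ h
      omega
    · intro n hn
      rw [Finset.mem_filter, Finset.mem_Ico] at hn
      refine ⟨n - k, ?_, by omega⟩
      rw [Finset.mem_filter, Finset.mem_range]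
      refine ⟨by omega, ?_⟩
      have : n - k + k = n := by omega
      rw [this]
      exact hn.2
  rw [Finset.sum_congr rfl h2, Finset.sum_const, Nat.card_Icc, smul_eq_mul]
  simp

theorem good_card (P : ℕ) (f : ℕ → ℕ) (S t : ℝ) (ht : 0 < t) (hS : 0 < S)
    (hsum : ((∑ b ∈ range P, f b : ℕ) : ℝ) ≤ P * S) :
    t / (1 + t) * P ≤ ((range P).filter (fun b => (f b : ℝ) ≤ (1 + t) * S)).card := by
  set G := (range P).filter (fun b => (f b : ℝ) ≤ (1 + t) * S) with hG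
  set Bd := (range P).filter (fun b => ¬ (f b : ℝ) ≤ (1 + t) * S) with hBd
  have h1 : (G.card : ℝ) + Bd.card = P := by
    have := Finset.card_filter_add_card_filter_not (s := range P)
      (fun b => (f b : ℝ) ≤ (1 + t) * S)
    rw [Finset.card_range] at this
    exact_mod_cast this
  have h2 : (Bd.card : ℝ) * ((1 + t) * S) ≤ P * S := by
    refine le_trans ?_ hsum
    push_cast
    calc (Bd.card : ℝ) * ((1 + t) * S) = ∑ _b ∈ Bd, (1 + t) * S := by
          rw [Finset.sum_const, nsmul_eq_mul]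
      _ ≤ ∑ b ∈ Bd, (f b : ℝ) := by
          apply Finset.sum_le_sum
          intro b hb
          exact (not_le.1 (Finset.mem_filter.1 hb).2).le
      _ ≤ ∑ b ∈ range P, (f b : ℝ) := by
          apply Finset.sum_le_sum_of_subset_of_nonneg (Finset.filter_subset _ _)
          intro b _ _
          positivity
  have h3 : (Bd.card : ℝ) * (1 + t) ≤ P := by
    have e1 : ((Bd.card : ℝ) * (1 + t)) * S ≤ P * S := by linarith
    exact le_of_mul_le_mul_right e1 hS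
  rw [div_mul_eq_mul_div, div_le_iff₀ (by linarith)]
  nlinarith

/-- one class -/
theorem class_cnt (w y₁ y₂ x F Φ len X M : ℝ) (b : ℕ) (hx0 : 0 ≤ x) (hxw : x ≤ w) (hF0 : 0 ≤ F)
    (hFw : F ≤ w) (hy : y₁ ≤ y₂) (hxy : x ≤ y₂) (hΦ : 0 ≤ Φ)
    (hcov : ∀ res : ℕ → ((Icc 1 ⌊F⌋₊).filter (fun k => (primorial ⌊x⌋₊).Coprime (b + k))) → ℤ,
      (∀ p : ℕ, p.Prime → w < p → (p : ℝ) ≤ y₁ → ∀ k l, k ≠ l →
        ¬ ((p : ℤ) ∣ res p k - res p l)) →
      ∀ A B : ℤ, len ≤ (B : ℝ) - A →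
      3 / 8 * ((B : ℝ) - A) ≤ (((Ioc A B).filter (fun x : ℤ => ∀ k, ∃ p : ℕ, p.Prime ∧
        w < p ∧ (p : ℝ) ≤ y₁ ∧ (p : ℤ) ∣ x - res p k)).card : ℝ) * Φ)
    (hlen : len ≤ (X - F) / (primorial ⌊x⌋₊ : ℝ) - 1) :
    3 / 8 * ((X - F) / (primorial ⌊x⌋₊ : ℝ) - 1) ≤
      ((((RunSet_finite M X F y₂ hF0).toFinset).filter
        (fun n : ℤ => ((primorial ⌊x⌋₊ : ℕ) : ℤ) ∣ n - b)).card : ℝ) * Φ := by
  set P : ℕ := primorial ⌊x⌋₊ with hPdef
  have hPpos : 0 < P := primorial_pos _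
  have hPr : (0 : ℝ) < P := by exact_mod_cast hPpos
  have hfloor : ∀ p : ℕ, p ≤ ⌊x⌋₊ ↔ (p : ℝ) ≤ x := fun p => Nat.le_floor_iff hx0
  have hndvdP : ∀ p : ℕ, p.Prime → w < p → ¬ p ∣ P := by
    intro p hp hpX h
    have := (hfloor p).1 ((hp.dvd_primorial_iff).1 h)
    linarith
  -- inverses
  have hinv : ∀ p : ℕ, ∃ i : ℤ, p.Prime → ¬ p ∣ P → (p : ℤ) ∣ P * i - 1 := by
    intro p
    by_cases h : p.Prime ∧ ¬ p ∣ P
    · obtain ⟨i, hi⟩ := LG.inv_exists h.1 h.2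
      exact ⟨i, fun _ _ => hi⟩
    · exact ⟨0, fun h1 h2 => absurd ⟨h1, h2⟩ h⟩
  choose ip hip using hinv
  set A' : ℤ := ⌊(M - b) / P⌋ with hA'
  set B' : ℤ := ⌊(M + X - F - b) / P⌋ with hB'
  have hBA : (X - F) / (P : ℝ) - 1 ≤ (B' : ℝ) - A' := by
    have e1 := Int.floor_le ((M - b) / P)
    have e2 := Int.lt_floor_add_one ((M + X - F - b) / P)
    have e3 : (M + X - F - b) / P = (M - b) / P + (X - F) / P := by
      field_simp
      ring
    linarith
  have hcount := hcov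
    (fun p k => -((b : ℤ) + ((k : ℕ) : ℤ)) * ip p) (by
      intro p hp hp1 _ k l hkl hdvd
      have h1 := hip p hp (hndvdP p hp hp1)
      have h2 : (p : ℤ) ∣ ((l : ℕ) : ℤ) - ((k : ℕ) : ℤ) := by
        have h3 : (p : ℤ) ∣ (P : ℤ) * (-((b : ℤ) + ((k : ℕ) : ℤ)) * ip p -
            -((b : ℤ) + ((l : ℕ) : ℤ)) * ip p) := hdvd.mul_left _
        have h4 : (p : ℤ) ∣ (((l : ℕ) : ℤ) - ((k : ℕ) : ℤ)) * ((P : ℤ) * ip p - 1) := h1.mul_left _
        have h5 := dvd_sub h3 h4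
        have h6 : (P : ℤ) * (-((b : ℤ) + ((k : ℕ) : ℤ)) * ip p -
            -((b : ℤ) + ((l : ℕ) : ℤ)) * ip p) -
            (((l : ℕ) : ℤ) - ((k : ℕ) : ℤ)) * ((P : ℤ) * ip p - 1) =
            ((l : ℕ) : ℤ) - ((k : ℕ) : ℤ) := by ring
        rwa [h6] at h5
      have hk := mem_Icc.1 (mem_filter.1 k.2).1
      have hl := mem_Icc.1 (mem_filter.1 l.2).1
      have hpL : ⌊F⌋₊ < p := by
        have : (⌊F⌋₊ : ℝ) < p := lt_of_le_of_lt ((Nat.floor_le hF0).trans hFw) hp1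
        exact_mod_cast this
      have h7 : ((l : ℕ) : ℤ) - ((k : ℕ) : ℤ) = 0 := by
        apply Int.eq_zero_of_abs_lt_dvd h2
        rw [abs_lt]
        constructor <;> omega
      apply hkl
      apply Subtype.ext
      omega)
    A' B' (hlen.trans hBA)
  set U : Finset ℕ := (Icc 1 ⌊F⌋₊).filter (fun k => P.Coprime (b + k)) with hU
  set S : Finset ℤ := (Ioc A' B').filter (fun x : ℤ => ∀ k : U,
      ∃ p : ℕ, p.Prime ∧ w < p ∧ (p : ℝ) ≤ y₁ ∧
        (p : ℤ) ∣ x - -((b : ℤ) + ((k : ℕ) : ℤ)) * ip p) with hS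
  have hsub : S.image (fun m : ℤ => (b : ℤ) + P * m) ⊆
      ((RunSet_finite M X F y₂ hF0).toFinset).filter (fun n : ℤ => ((P : ℕ) : ℤ) ∣ n - b) := by
    intro n hn
    rw [Finset.mem_image] at hn
    obtain ⟨m, hm, rfl⟩ := hn
    rw [hS, Finset.mem_filter, Finset.mem_Ioc] at hm
    obtain ⟨⟨hmA, hmB⟩, hm⟩ := hm
    have hm1 : (M - b) / P < m := by
      have := Int.lt_floor_add_one ((M - b) / P)
      have h2 : ((⌊(M - b) / P⌋ : ℤ) : ℝ) + 1 ≤ m := by exact_mod_cast hmA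
      linarith
    have hm2 : (m : ℝ) ≤ (M + X - F - b) / P := by
      have := Int.floor_le ((M + X - F - b) / P)
      have h2 : (m : ℝ) ≤ ((⌊(M + X - F - b) / P⌋ : ℤ) : ℝ) := by exact_mod_cast hmB
      linarith
    rw [div_lt_iff₀ hPr] at hm1
    rw [le_div_iff₀ hPr] at hm2
    rw [Finset.mem_filter, Set.Finite.mem_toFinset]
    refine ⟨⟨?_, ?_, ?_⟩, ?_⟩
    · push_cast
      linarith
    · push_cast
      linarith
    · intro k hk1 hkL
      have hkN : k ≤ ⌊F⌋₊ := Nat.le_floor hkL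
      by_cases hkU : k ∈ U
      · obtain ⟨p, hp, hp1, hp2, hp3⟩ := hm ⟨k, hkU⟩
        refine ⟨p, hp, hp2.trans hy, ?_⟩
        have h1 := hip p hp (hndvdP p hp hp1)
        have h3 := hp3.mul_left (P : ℤ)
        have h4 := h1.mul_left ((b : ℤ) + (k : ℤ))
        have h5 := dvd_sub h3 h4
        have h6 : (P : ℤ) * ((m : ℤ) - -((b : ℤ) + (k : ℤ)) * ip p) -
            ((b : ℤ) + (k : ℤ)) * ((P : ℤ) * ip p - 1) = (b : ℤ) + P * m + k := by
          ring
        rwa [← h6]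
      · have hkU' : ¬ P.Coprime (b + k) := fun h =>
          hkU (mem_filter.2 ⟨mem_Icc.2 ⟨hk1, hkN⟩, h⟩)
        rw [Nat.Prime.not_coprime_iff_dvd] at hkU'
        obtain ⟨p, hp, hp1, hp2⟩ := hkU'
        have hpx : (p : ℝ) ≤ x := (hfloor p).1 ((hp.dvd_primorial_iff).1 hp1)
        refine ⟨p, hp, hpx.trans hxy, ?_⟩
        have h3 : (p : ℤ) ∣ (P : ℤ) * m := Dvd.dvd.mul_right (by exact_mod_cast hp1) _
        have h4 : (p : ℤ) ∣ (b : ℤ) + k := by exact_mod_cast hp2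
        have h5 : (b : ℤ) + P * m + k = ((b : ℤ) + k) + P * m := by ring
        rw [h5]
        exact dvd_add h4 h3
    · refine ⟨m, ?_⟩
      ring
  have hinj : (S.image (fun m : ℤ => (b : ℤ) + P * m)).card = S.card := by
    apply Finset.card_image_of_injective
    intro m m' h
    have hP0 : (P : ℤ) ≠ 0 := by exact_mod_cast hPpos.ne'
    have h2 : (P : ℤ) * m = P * m' := by
      have : (b : ℤ) + P * m = b + P * m' := h
      linarith
    exact mul_left_cancel₀ hP0 h2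
  have hcard : (S.card : ℝ) ≤ ((((RunSet_finite M X F y₂ hF0).toFinset).filter
      (fun n : ℤ => ((P : ℕ) : ℤ) ∣ n - b)).card : ℝ) := by
    have h1 := Finset.card_le_card hsub
    rw [hinj] at h1
    exact_mod_cast h1
  have h1 : 3 / 8 * ((X - F) / (P : ℝ) - 1) ≤ 3 / 8 * ((B' : ℝ) - A') := by linarith
  exact h1.trans (hcount.trans (mul_le_mul_of_nonneg_right hcard hΦ))

/-- all classes -/
theorem classes_cnt (R : Finset ℤ) (P : ℕ) (hP : 0 < P) (G : Finset ℕ) (hG : G ⊆ range P)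
    (v Φ : ℝ) (h : ∀ b ∈ G, v ≤ ((R.filter (fun n : ℤ => (P : ℤ) ∣ n - b)).card : ℝ) * Φ)
    (hΦ : 0 ≤ Φ) : G.card * v ≤ R.card * Φ := by
  have h1 : (G.biUnion (fun b => R.filter (fun n : ℤ => (P : ℤ) ∣ n - b))).card =
      ∑ b ∈ G, (R.filter (fun n : ℤ => (P : ℤ) ∣ n - b)).card := by
    apply Finset.card_biUnion
    intro b hb b' hb' hbb
    rw [Function.onFun, Finset.disjoint_left]
    intro n hn hn'
    rw [Finset.mem_filter] at hn hn'
    have h2 := dvd_sub hn'.2 hn.2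
    have h3 : n - (b' : ℤ) - (n - b) = (b : ℤ) - b' := by ring
    rw [h3] at h2
    have h4 := Finset.mem_range.1 (hG hb)
    have h5 := Finset.mem_range.1 (hG hb')
    have h6 : (b : ℤ) - b' = 0 := by
      apply Int.eq_zero_of_abs_lt_dvd h2
      rw [abs_lt]
      constructor <;> omega
    apply hbb
    omega
  have h2 : (G.biUnion (fun b => R.filter (fun n : ℤ => (P : ℤ) ∣ n - b))).card ≤ R.card := by
    apply Finset.card_le_card
    intro n hn
    rw [Finset.mem_biUnion] at hn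
    obtain ⟨b, _, hn⟩ := hn
    exact (Finset.mem_filter.1 hn).1
  rw [h1] at h2
  have h3 : (∑ b ∈ G, ((R.filter (fun n : ℤ => (P : ℤ) ∣ n - b)).card : ℝ)) ≤ R.card := by
    exact_mod_cast h2
  calc (G.card : ℝ) * v = ∑ _b ∈ G, v := by rw [Finset.sum_const, nsmul_eq_mul]
    _ ≤ ∑ b ∈ G, ((R.filter (fun n : ℤ => (P : ℤ) ∣ n - b)).card : ℝ) * Φ :=
        Finset.sum_le_sum h
    _ = (∑ b ∈ G, ((R.filter (fun n : ℤ => (P : ℤ) ∣ n - b)).card : ℝ)) * Φ := by
        rw [Finset.sum_mul]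
    _ ≤ R.card * Φ := mul_le_mul_of_nonneg_right h3 hΦ

end Pool.Agent.Y831.RC
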