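import Pool.Agent.Y831.RC3.Bound

set_option autoImplicit false
set_option linter.unusedSectionVars false

/-! # Brun-Hooley majorants -/

namespace Pool.Agent.Y831.RC

open Finset Pool.Agent.H256R2.SC

variable {n : ℕ} {κ : Type} [Fintype κ] [DecidableEq κ]

/-- the colouring restricted to the block `j` -/
def mask (bl : Fin n → ℕ) (j : ℕ) (x : Col n κ) : Col n κ := fun i => if bl i = j then x i else none

theorem mask_iff (bl : Fin n → ℕ) (j : ℕ) (x : Col n κ) (i : Fin n) (k : κ) :
    mask bl j x i = some k ↔ bl i = j ∧ x i = some k := by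
  unfold mask
  split_ifs with h
  · simp [h]
  · simp [h]

/-- the Brun-Hooley majorant of the event that the colour `k` does not occur -/
noncomputable def BHk (bl : Fin n → ℕ) (B : ℕ) (M : ℕ → ℕ) (k : κ) (x : Col n κ) : ℝ :=
  ∏ j ∈ range B, SS (M j) k (mask bl j x)

theorem SS_nonneg (M : ℕ) (hM : Even M) (k : κ) (x : Col n κ) : 0 ≤ SS M k x := by
  refine le_trans ?_ (SS_lower M hM k x)
  split_ifs <;> norm_num

theorem BHk_nonneg (bl : Fin n → ℕ) (B : ℕ) (M : ℕ → ℕ) (hM : ∀ j, Even (M j)) (k : κ)
    (x : Col n κ) : 0 ≤ BHk bl B M k x :=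
  Finset.prod_nonneg fun j _ => SS_nonneg (M j) (hM j) k _

theorem BHk_one (bl : Fin n → ℕ) (B : ℕ) (M : ℕ → ℕ) (k : κ) (x : Col n κ)
    (h : ∀ i, x i ≠ some k) : BHk bl B M k x = 1 := by
  apply Finset.prod_eq_one
  intro j _
  apply SS_zero
  rw [← no_hits_iff]
  intro i hi
  rw [mask_iff] at hi
  exact h i hi.2

theorem SS_pow_le (M : ℕ) (hM : Even M) (k : κ) (x : Col n κ) (a : ℕ) (ha1 : 1 ≤ a)
    (ha3 : a ≤ 3) :
    (SS M k x) ^ a ≤ (∏ i, if x i = some k then (0:ℝ) else 1) +
      (1 / 3) ^ M * ∏ i, (if x i = some k then (64:ℝ) else 1) := by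
  have h := SS_upper M hM 3 (by norm_num) k x
  have h0 := SS_nonneg M hM k x
  have hp : (0:ℝ) ≤ (1 / 3) ^ M * ∏ i, (if x i = some k then (64:ℝ) else 1) := by
    apply mul_nonneg (by positivity)
    apply Finset.prod_nonneg
    intro i _
    split_ifs <;> norm_num
  by_cases hx : ∀ i, x i ≠ some k
  · have h1 : ∏ i, (if x i = some k then (0:ℝ) else 1) = 1 := by
      apply Finset.prod_eq_one
      intro i _
      rw [if_neg (hx i)]
    rw [h1, SS_zero M k x ((no_hits_iff k x).1 hx), one_pow]
    linarith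
  · rw [if_neg hx, zero_add] at h
    push Not at hx
    obtain ⟨i, hi⟩ := hx
    rw [Finset.prod_eq_zero (Finset.mem_univ i) (by rw [if_pos hi]), zero_add]
    refine (pow_le_pow_left₀ h0 h a).trans ?_
    rw [mul_pow]
    apply mul_le_mul
    · have h1 : (0:ℝ) ≤ (1 / 3) ^ M := by positivity
      have h2 : ((1:ℝ) / 3) ^ M ≤ 1 := pow_le_one₀ (by norm_num) (by norm_num)
      exact pow_le_of_le_one h1 h2 (by omega)
    · rw [← Finset.prod_pow]
      apply Finset.prod_le_prod
      · intro i _
        split_ifs <;> positivity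
      · intro i _
        split_ifs
        · calc ((1:ℝ) + 3) ^ a ≤ (1 + 3) ^ 3 := pow_le_pow_right₀ (by norm_num) ha3
            _ = 64 := by norm_num
        · simp
    · apply pow_nonneg
      apply Finset.prod_nonneg
      intro i _
      split_ifs <;> norm_num
    · positivity

/-- the local factors -/
noncomputable def fS (bl : Fin n → ℕ) (S T : Finset (κ × ℕ)) (i : Fin n) (c : Option κ) : ℝ :=
  (∏ q ∈ S, if bl i = q.2 ∧ c = some q.1 then (0:ℝ) else 1) *
    ∏ q ∈ T, if bl i = q.2 ∧ c = some q.1 then (64:ℝ) else 1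

theorem fS_none (bl : Fin n → ℕ) (S T : Finset (κ × ℕ)) (i : Fin n) : fS bl S T i none = 1 := by
  unfold fS
  simp

theorem fS_some (bl : Fin n → ℕ) (B : ℕ) (hbl : ∀ i, bl i < B) (K : Finset κ)
    (S : Finset (κ × ℕ)) (i : Fin n) (l : κ) :
    fS bl S ((K ×ˢ range B) \ S) i (some l) - 1 ≤ (if l ∈ K then -1 else 0) +
      64 * (if (l, bl i) ∈ (K ×ˢ range B) \ S then 1 else 0) := by
  have hS1 : (∏ q ∈ S, if bl i = q.2 ∧ some l = some q.1 then (0:ℝ) else 1) ≤ 1 := by
    apply Finset.prod_le_one
    · intro q _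
      split_ifs <;> norm_num
    · intro q _
      split_ifs <;> norm_num
  have hS0 : 0 ≤ (∏ q ∈ S, if bl i = q.2 ∧ some l = some q.1 then (0:ℝ) else 1) := by
    apply Finset.prod_nonneg
    intro q _
    split_ifs <;> norm_num
  by_cases hlT : (l, bl i) ∈ (K ×ˢ range B) \ S
  · rw [if_pos hlT]
    have hlK : l ∈ K := (Finset.mem_product.1 (Finset.mem_sdiff.1 hlT).1).1
    rw [if_pos hlK]
    have hT : (∏ q ∈ (K ×ˢ range B) \ S, if bl i = q.2 ∧ some l = some q.1 then (64:ℝ) else 1) =
        64 := by
      rw [Finset.prod_eq_single (l, bl i)]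
      · simp
      · intro q _ hq
        rw [if_neg]
        rintro ⟨h1, h2⟩
        apply hq
        ext
        · exact (Option.some.inj h2).symm
        · exact h1.symm
      · intro h
        exact absurd hlT h
    unfold fS
    rw [hT]
    nlinarith
  · rw [if_neg hlT]
    have hT : (∏ q ∈ (K ×ˢ range B) \ S, if bl i = q.2 ∧ some l = some q.1 then (64:ℝ) else 1) =
        1 := by
      apply Finset.prod_eq_one
      intro q hq
      rw [if_neg]
      rintro ⟨h1, h2⟩
      apply hlT
      have : (l, bl i) = q := by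
        ext
        · exact Option.some.inj h2
        · exact h1
      rw [this]
      exact hq
    unfold fS
    rw [hT, mul_one]
    by_cases hlK : l ∈ K
    · rw [if_pos hlK]
      have hlS : (l, bl i) ∈ S := by
        by_contra hc
        exact hlT (Finset.mem_sdiff.2 ⟨Finset.mem_product.2 ⟨hlK, Finset.mem_range.2 (hbl i)⟩, hc⟩)
      rw [Finset.prod_eq_zero hlS (by simp)]
      norm_num
    · rw [if_neg hlK]
      linarith

theorem BH_up {g : Fin n → ℝ} (hg : ∀ i, 0 ≤ g i) (hw : ∀ i (c : Option κ), 0 ≤ wt (g i) c)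
    (hu : ∀ i, (Fintype.card κ : ℝ) * g i ≤ 1 / 2) (bl : Fin n → ℕ) (B : ℕ)
    (hbl : ∀ i, bl i < B) (M : ℕ → ℕ) (hM : ∀ j, Even (M j)) (K : Finset κ) (a : κ → ℕ)
    (ha : ∀ k, 1 ≤ a k ∧ a k ≤ 3) :
    EE g (fun x : Col n κ => ∏ k ∈ K, (BHk bl B M k x) ^ (a k)) ≤
      rho g K.card * (∏ j ∈ range B, (1 + (1 / 3) ^ (M j) *
        Real.exp (128 * ∑ i with bl i = j, g i))) ^ K.card := by
  have hKu : K.card ≤ Fintype.card κ := Finset.card_le_univ K
  have hρ := rho_pos hg hu hKu
  set I : Finset (κ × ℕ) := K ×ˢ range B with hI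
  -- pointwise
  have h1 : EE g (fun x : Col n κ => ∏ k ∈ K, (BHk bl B M k x) ^ (a k)) ≤
      EE g (fun x : Col n κ => ∑ S ∈ I.powerset,
        (∏ q ∈ I \ S, ((1:ℝ) / 3) ^ (M q.2)) * ∏ i, fS bl S (I \ S) i (x i)) := by
    apply EE_mono hw
    intro x
    have e1 : ∏ k ∈ K, (BHk bl B M k x) ^ (a k) =
        ∏ q ∈ I, (SS (M q.2) q.1 (mask bl q.2 x)) ^ (a q.1) := by
      rw [hI, Finset.prod_product]
      refine Finset.prod_congr rfl fun k _ => ?_
      unfold BHk
      rw [← Finset.prod_pow]
    have e2 : ∏ q ∈ I, (SS (M q.2) q.1 (mask bl q.2 x)) ^ (a q.1) ≤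
        ∏ q ∈ I, ((∏ i, if bl i = q.2 ∧ x i = some q.1 then (0:ℝ) else 1) +
          (1 / 3) ^ (M q.2) * ∏ i, (if bl i = q.2 ∧ x i = some q.1 then (64:ℝ) else 1)) := by
      apply Finset.prod_le_prod
      · intro q _
        exact pow_nonneg (SS_nonneg _ (hM _) _ _) _
      · intro q _
        have := SS_pow_le (M q.2) (hM q.2) q.1 (mask bl q.2 x) (a q.1) (ha q.1).1 (ha q.1).2
        simpa only [mask_iff] using this
    rw [e1]
    refine e2.trans (le_of_eq ?_)
    rw [Finset.prod_add]
    refine Finset.sum_congr rfl fun S _ => ?_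
    rw [Finset.prod_mul_distrib]
    have e3 : ∏ i, fS bl S (I \ S) i (x i) =
        (∏ q ∈ S, ∏ i, if bl i = q.2 ∧ x i = some q.1 then (0:ℝ) else 1) *
        ∏ q ∈ I \ S, ∏ i, if bl i = q.2 ∧ x i = some q.1 then (64:ℝ) else 1 := by
      unfold fS
      rw [Finset.prod_mul_distrib]
      congr 1
      · rw [Finset.prod_comm]
      · rw [Finset.prod_comm]
    rw [e3]
    ring
  refine h1.trans ?_
  rw [EE_sum]
  have h2 : ∀ S ∈ I.powerset, EE g (fun x : Col n κ =>
      (∏ q ∈ I \ S, ((1:ℝ) / 3) ^ (M q.2)) * ∏ i, fS bl S (I \ S) i (x i)) ≤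
      rho g K.card * ∏ q ∈ I \ S, ((1 / 3) ^ (M q.2) *
        Real.exp (128 * ∑ i with bl i = q.2, g i)) := by
    intro S _
    rw [EE_smul, EE_prod g (fun i c => fS bl S (I \ S) i c)]
    set T : Finset (κ × ℕ) := I \ S with hT
    set c : Fin n → ℝ := fun i => ∑ q ∈ T, if bl i = q.2 then (1:ℝ) else 0 with hc
    have hc0 : ∀ i, 0 ≤ c i := by
      intro i
      apply Finset.sum_nonneg
      intro q _
      split_ifs <;> norm_num
    have e1 : ∀ i, ∑ k : κ, (if (k, bl i) ∈ T then (1:ℝ) else 0) = c i := by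
      intro i
      have : ∀ k : κ, (if (k, bl i) ∈ T then (1:ℝ) else 0) =
          ∑ q ∈ T, if q = (k, bl i) then (1:ℝ) else 0 := by
        intro k
        rw [Finset.sum_ite_eq']
      rw [Finset.sum_congr rfl fun k _ => this k, Finset.sum_comm]
      refine Finset.sum_congr rfl fun q _ => ?_
      by_cases hq : bl i = q.2
      · rw [if_pos hq, Finset.sum_eq_single q.1]
        · rw [if_pos]
          rw [hq]
        · intro k _ hk
          rw [if_neg]
          intro h
          apply hk
          rw [h]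
        · intro h
          exact absurd (Finset.mem_univ _) h
      · rw [if_neg hq]
        apply Finset.sum_eq_zero
        intro k _
        rw [if_neg]
        intro h
        apply hq
        rw [h]
    have e2 : ∏ i, ∑ d : Option κ, wt (g i) d * fS bl S T i d ≤
        rho g K.card * ∏ q ∈ T, Real.exp (128 * ∑ i with bl i = q.2, g i) := by
      have e3 : ∏ q ∈ T, Real.exp (128 * ∑ i with bl i = q.2, g i) =
          ∏ i, Real.exp (128 * (g i * c i)) := by
        rw [← Real.exp_sum, ← Real.exp_sum, ← Finset.mul_sum, ← Finset.mul_sum]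
        congr 2
        simp only [hc, Finset.mul_sum]
        rw [Finset.sum_comm]
        refine Finset.sum_congr rfl fun q _ => ?_
        rw [Finset.sum_filter]
        refine Finset.sum_congr rfl fun i _ => ?_
        split_ifs <;> simp
      rw [e3]
      unfold rho
      rw [← Finset.prod_mul_distrib]
      apply Finset.prod_le_prod
      · intro i _
        apply Finset.sum_nonneg
        intro d _
        apply mul_nonneg (hw i d)
        unfold fS
        apply mul_nonneg
        · apply Finset.prod_nonneg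
          intro q _
          split_ifs <;> norm_num
        · apply Finset.prod_nonneg
          intro q _
          split_ifs <;> norm_num
      · intro i _
        rw [sum_wt (g i) (fun d => fS bl S T i d) (fS_none bl S T i)]
        have e4 : ∑ k : κ, (fS bl S T i (some k) - 1) ≤ -(K.card : ℝ) + 64 * c i := by
          refine (Finset.sum_le_sum fun k _ => fS_some bl B hbl K S i k).trans (le_of_eq ?_)
          rw [Finset.sum_add_distrib, ← Finset.mul_sum, e1 i, Finset.sum_ite,
            Finset.sum_const_zero, add_zero, Finset.sum_const, Finset.filter_mem_eq_inter,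
            Finset.univ_inter, nsmul_eq_mul]
          ring
        have e5 := mul_le_mul_of_nonneg_left e4 (hg i)
        have e6 := rho_fac hg hu hKu i
        have e7 : 1 + 128 * (g i * c i) ≤ Real.exp (128 * (g i * c i)) := by
          have := Real.add_one_le_exp (128 * (g i * c i))
          linarith
        have e8 : 0 ≤ 1 - (K.card : ℝ) * g i := by linarith
        have e9 := mul_le_mul_of_nonneg_left e7 e8
        have e10 : 0 ≤ g i * c i := mul_nonneg (hg i) (hc0 i)
        nlinarith
    have e3 : 0 ≤ ∏ q ∈ T, ((1:ℝ) / 3) ^ (M q.2) :=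
      Finset.prod_nonneg fun q _ => by positivity
    refine (mul_le_mul_of_nonneg_left e2 e3).trans (le_of_eq ?_)
    rw [Finset.prod_mul_distrib]
    ring
  refine (Finset.sum_le_sum h2).trans (le_of_eq ?_)
  rw [← Finset.mul_sum]
  congr 1
  have h3 := Finset.prod_add (fun _ : κ × ℕ => (1:ℝ)) (fun q : κ × ℕ => (1 / 3) ^ (M q.2) *
        Real.exp (128 * ∑ i with bl i = q.2, g i)) I
  simp only [Finset.prod_const_one, one_mul] at h3
  rw [← h3, hI, Finset.prod_product]
  simp only [Finset.prod_const]

/-- bounded coefficient sums -/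
theorem Lw_SSmask (bl : Fin n → ℕ) (j : ℕ) (J : ℕ) (k : κ) :
    Lw ((((univ.filter (fun i => bl i = j)).card : ℝ) + 1) ^ J)
      (fun x : Col n κ => SS J k (mask bl j x)) := by
  set P : Finset (Fin n) := univ.filter (fun i => bl i = j) with hP
  have h1 := Lw_sum (n := n) (κ := κ) (P.powerset.filter (fun s => s.card ≤ J))
    (fun s => |(-1:ℝ) ^ s.card| * 1)
    (fun s (x : Col n κ) => (-1) ^ s.card * ind (onS k s) x)
    (fun s _ => Lw_smul _ (Lw_ind _))
  have h2 : (fun x : Col n κ => ∑ s ∈ P.powerset.filter (fun s => s.card ≤ J),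
      (-1) ^ s.card * ind (onS k s) x) = fun x => SS J k (mask bl j x) := by
    funext x
    unfold SS
    symm
    have e1 : P.powerset.filter (fun s => s.card ≤ J) ⊆
        univ.filter (fun s : Finset (Fin n) => s.card ≤ J) := by
      intro s hs
      rw [Finset.mem_filter] at hs ⊢
      exact ⟨Finset.mem_univ _, hs.2⟩
    rw [← Finset.sum_subset e1]
    · refine Finset.sum_congr rfl fun s hs => ?_
      rw [Finset.mem_filter, Finset.mem_powerset] at hs
      rw [ind_onS]
      congr 1
      have e2 : (∀ i ∈ s, mask bl j x i = some k) ↔ ∀ i ∈ s, x i = some k := by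
        constructor
        · intro h i hi
          exact ((mask_iff bl j x i k).1 (h i hi)).2
        · intro h i hi
          rw [mask_iff]
          have := hs.1 hi
          rw [hP, Finset.mem_filter] at this
          exact ⟨this.2, h i hi⟩
      by_cases h : ∀ i ∈ s, x i = some k
      · rw [if_pos h, if_pos (e2.2 h)]
      · rw [if_neg h, if_neg (fun h' => h (e2.1 h'))]
    · intro s hs hs'
      rw [Finset.mem_filter] at hs hs'
      rw [if_neg, mul_zero]
      intro h
      apply hs'
      refine ⟨Finset.mem_powerset.2 fun i hi => ?_, hs.2⟩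
      rw [hP, Finset.mem_filter]
      exact ⟨Finset.mem_univ _, ((mask_iff bl j x i k).1 (h i hi)).1⟩
  rw [h2] at h1
  refine Lw_mono ?_ h1
  have h3 : ∀ s : Finset (Fin n), |(-1:ℝ) ^ s.card| * 1 = 1 := by
    intro s
    rw [abs_pow, abs_neg, abs_one, one_pow, one_mul]
  rw [Finset.sum_congr rfl fun s _ => h3 s, Finset.sum_const, nsmul_eq_mul, mul_one]
  have h4 : (P.powerset.filter (fun s => s.card ≤ J)).card ≤ (P.card + 1) ^ J := by
    clear h1 h2
    induction J with
    | zero =>
      have e1 : P.powerset.filter (fun s => s.card ≤ 0) ⊆ {∅} := by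
        intro s hs
        rw [Finset.mem_filter] at hs
        rw [Finset.mem_singleton]
        exact Finset.card_eq_zero.1 (by omega)
      simpa using Finset.card_le_card e1
    | succ J ih =>
      have e1 : P.powerset.filter (fun s => s.card ≤ J + 1) ⊆
          (P.powerset.filter (fun s => s.card ≤ J)) ∪ powersetCard (J + 1) P := by
        intro s hs
        simp only [mem_filter, mem_powerset, mem_union, mem_powersetCard] at hs ⊢
        by_cases h : s.card ≤ J
        · exact Or.inl ⟨hs.1, h⟩
        · exact Or.inr ⟨hs.1, by omega⟩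
      have e2 := (Finset.card_le_card e1).trans (Finset.card_union_le _ _)
      rw [Finset.card_powersetCard] at e2
      have e3 : P.card.choose (J + 1) ≤ P.card ^ (J + 1) := Nat.choose_le_pow _ (J + 1)
      have e4 : P.card ^ (J + 1) ≤ P.card * (P.card + 1) ^ J := by
        rw [pow_succ, mul_comm]
        exact Nat.mul_le_mul_left _ (Nat.pow_le_pow_left (Nat.le_succ _) J)
      calc (P.powerset.filter (fun s => s.card ≤ J + 1)).card
          ≤ (P.card + 1) ^ J + P.card * (P.card + 1) ^ J := by omega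
        _ = (P.card + 1) ^ (J + 1) := by ring
  exact_mod_cast h4

theorem Lw_BHk (bl : Fin n → ℕ) (B : ℕ) (M : ℕ → ℕ) (k : κ) :
    Lw (∏ j ∈ range B, (((univ.filter (fun i => bl i = j)).card : ℝ) + 1) ^ (M j))
      (BHk bl B M k : Col n κ → ℝ) :=
  Lw_prod (range B) _ _ fun j _ => Lw_SSmask bl j (M j) k

end Pool.Agent.Y831.RC
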