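import Pool.Agent.Y831.RC5.Pt5

set_option autoImplicit false
set_option linter.unusedSectionVars false

/-! # The abstract covering sieve with majorants of single colours: many covered elements -/

namespace Pool.Agent.Y831.RC

open Finset Pool.Agent.H256R2.SC

variable {n₁ n₂ : ℕ} {κ : Type} [Fintype κ] [DecidableEq κ]

theorem Lw_V5 (g₂ : Fin n₂ → ℝ) (hg0 : ∀ i, 0 ≤ g₂ i) (hg1 : ∀ i, g₂ i ≤ 1) (p : Fin n₂ → ℝ)
    (y : Col n₂ κ → ℝ) (hy : ∀ D, |y D| ≤ 1) (Q : ℝ) (hQ : ∀ D, y D ≠ 0 → qq p D ≤ Q)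
    (R : κ → Col n₁ κ → ℝ) (Λ : ℝ) (hΛ : 1 ≤ Λ) (hRL : ∀ k, Lw Λ (R k)) (r : ℕ)
    (hr : ∀ D, y D ≠ 0 → (cols D).card ≤ r) :
    Lw (Λ ^ r * ∑ D : Col n₂ κ with qq p D ≤ Q,
      2 ^ (univ.filter (fun i => D i ≠ none)).card)
      (fun x : Col (n₁ + n₂) κ => V5 g₂ y R (fstc x) (sndc x)) := by
  have h1 := Lw_sum (n := n₁ + n₂) (κ := κ) univ (fun D : Col n₂ κ =>
    |y D| * ((∏ _k ∈ cols D, Λ) *
      2 ^ (univ.filter (fun i => D i ≠ none)).card))
    (fun D x => y D * ((∏ k ∈ cols D, R k (fstc x)) * psi g₂ D (sndc x)))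
    (fun D _ => Lw_smul _ (Lw_mul (Lw_fst (Lw_prod (cols D) (fun _ => Λ) (fun k => R k)
      (fun k _ => hRL k)))
      (Lw_snd (Lw_psi g₂ hg0 hg1 D))))
  have h2 : (fun x : Col (n₁ + n₂) κ => ∑ D : Col n₂ κ,
      y D * ((∏ k ∈ cols D, R k (fstc x)) * psi g₂ D (sndc x))) =
      fun x => V5 g₂ y R (fstc x) (sndc x) := by
    funext x
    unfold V5 VV
    refine Finset.sum_congr rfl fun D _ => ?_
    ring
  rw [h2] at h1
  refine Lw_mono ?_ h1
  rw [Finset.mul_sum, Finset.sum_filter]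
  apply Finset.sum_le_sum
  intro D _
  by_cases h3 : y D = 0
  · rw [h3, abs_zero, zero_mul]
    split_ifs
    · positivity
    · exact le_rfl
  · rw [if_pos (hQ D h3), Finset.prod_const]
    have h4 : Λ ^ (cols D).card ≤ Λ ^ r := pow_le_pow_right₀ hΛ (hr D h3)
    have h5 : (0:ℝ) ≤ 2 ^ (univ.filter (fun i => D i ≠ none)).card := by positivity
    have h6 : Λ ^ (cols D).card * 2 ^ (univ.filter (fun i => D i ≠ none)).card ≤
        Λ ^ r * 2 ^ (univ.filter (fun i => D i ≠ none)).card := mul_le_mul_of_nonneg_right h4 h5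
    calc |y D| * (Λ ^ (cols D).card * 2 ^ (univ.filter (fun i => D i ≠ none)).card)
        ≤ 1 * (Λ ^ (cols D).card * 2 ^ (univ.filter (fun i => D i ≠ none)).card) :=
          mul_le_mul_of_nonneg_right (hy D) (by positivity)
      _ ≤ _ := by rw [one_mul]; exact h6

theorem core5 {α : Type} [DecidableEq α] (𝒜 : Finset α) (col : α → Col (n₁ + n₂) κ)
    {p g₂ : Fin n₂ → ℝ} {h : Finset (Fin n₂) → ℝ} {z K v₀ : ℝ} (H : HypS p g₂ h z K v₀)
    (g₁ : Fin n₁ → ℝ) (R : κ → Col n₁ κ → ℝ) (m τ : ℝ) (HR : BHyp g₁ R m τ)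
    (hτ0 : 0 ≤ τ) (hτ1 : τ ≤ 1) (Λ : ℝ) (hΛ : 1 ≤ Λ) (hRL : ∀ k, Lw Λ (R k))
    (Q δ N Err η s CB R₂ : ℝ) (J m₀ r : ℕ) (hJ : Even J) (hm₀ : m₀ ≤ J)
    (hN : 0 < N) (hErr : 0 ≤ Err) (hQz : 1 ≤ Q) (hη0 : 0 < η) (hη1 : η ≤ 1) (hs : 0 < s)
    (hg₁ : ∀ i, 0 ≤ g₁ i) (hg₁u : ∀ i, (Fintype.card κ : ℝ) * g₁ i ≤ 1 / 2)
    (hρ1 : 0 ≤ rho g₁ 1)
    (hg1 : ∀ i, g₂ i ≤ 1) (htg : ∀ i, 3 * 3 * g₂ i ≤ 1)
    (hug : ∀ i, (Fintype.card κ : ℝ) * g₂ i ≤ 1)
    (hδ : ∀ D : Col n₂ κ, qq p D ≤ Q → 2 * ∑ i with D i ≠ none, g₂ i ≤ δ)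
    (hug4 : (Fintype.card κ : ℝ) * δ ≤ 1 / 4)
    (hr : Real.log Q / v₀ ≤ r) (hrm : (r:ℝ) + 1 ≤ m) (hR₂ : 1 ≤ R₂)
    (hcard : ∀ s, h s ≠ 0 → s.card ≤ m₀)
    (hCB : Q ^ s * Real.exp (2 * (Fintype.card κ : ℝ) * ∑ i, 1 / (p i) ^ s) ≤ CB)
    (hE8 : Real.exp (η * ((1 + η) * (Fintype.card κ : ℝ) *
      (rho g₁ 1 * K) / Real.log z - Real.log (Q / z) / Real.log z)) ≤ 1 / 8)
    (htail : 4 * ((Fintype.card κ : ℝ) * rho g₁ 1) * (τ + (δ ^ 2 +
      Real.exp (η * ((1 + η) * (Fintype.card κ : ℝ) *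
      (rho g₁ 1 * K) / Real.log z - Real.log (Q / z) / Real.log z)))) ≤ 1 / 12)
    (hmom : 2 * ((Fintype.card κ : ℝ) * rho g₁ 1) * ((1 / 3) ^ J *
      Real.exp (20 * ∑ i, g₂ i)) ≤ 1 / 12)
    (hpen : 2 * ((Fintype.card κ : ℝ) * rho g₁ 1) * Real.exp (20 * ∑ i, g₂ i) ≤ R₂ / 12)
    (hcnt : ∀ D : Col (n₁ + n₂) κ,
      |((𝒜.filter (fun a => ∀ i, D i ≠ none → col a i = D i)).card : ℝ) -
        N * nu (Fin.append g₁ g₂) D| ≤ Err)
    (hfin : Err * ((Λ ^ r * CB) ^ 2 *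
      (1 + Fintype.card κ * (Λ * (((n₂:ℝ) + 1) ^ J + 1)))) < N / 8) :
    3 / 8 * N ≤ ((𝒜.filter (fun a => ∀ k, ∃ i, col a i = some k)).card : ℝ) *
      (3 * (1 + 3 * Real.exp (∑ i, g₂ i) * ((J : ℝ) + 2) ^ (2 * J) * (R₂ + 1)) ^ r) ^ 2 := by
  set u : ℝ := (Fintype.card κ : ℝ) with hu
  have hu0 : 0 ≤ u := Nat.cast_nonneg _
  have hQ0 : 0 < Q := by linarith
  have hz0 : 0 < z := by linarith [H.z1]
  have hw : ∀ i (c : Option κ), 0 ≤ wt (g₂ i) c := fun i c => wt_nonneg (H.g0 i).le (hug i) c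
  have hw₁ : ∀ i (c : Option κ), 0 ≤ wt (g₁ i) c := fun i c =>
    wt_nonneg (hg₁ i) (by linarith [hg₁u i]) c
  set E : ℝ := Real.exp (η * ((1 + η) * u * (rho g₁ 1 * K) / Real.log z -
    Real.log (Q / z) / Real.log z)) with hE
  set Z : ℝ := Zw (om g₁ : Col n₂ κ → ℝ) g₂ h with hZ
  have hZ1 : 1 ≤ Z := Zw_ge_one H hg₁ hg₁u
  have hE0 : 0 < E := Real.exp_pos _
  have hp1 : ∀ i, 1 ≤ p i := fun i => (H.p1 i).le
  have hT : ∑ D : Col n₂ κ with Q / z < qq p D, om g₁ D * ((yy h D) ^ 2 * nu g₂ D) ≤ E * Z :=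
    tail_rho H (om g₁) (om_nonneg hg₁ hg₁u) (rho g₁ 1) hρ1
      (fun D k hD => om_step hg₁ hg₁u D k hD) η hη0 hη1 (Q / z) (by positivity)
  have hT8 : E * Z ≤ 1 / 8 * Z := by nlinarith
  have hm1 : Real.log Q / v₀ + 1 ≤ m := by linarith
  set V : Col n₁ κ → Col n₂ κ → ℝ := V5 g₂ (yT p h Q) R with hV
  have hlow : 3 / 4 * Z ≤ EE g₁ (fun x₁ => EE g₂ (fun x₂ => (V x₁ x₂) ^ 2)) :=
    lower5 H HR hg₁ hg₁u Q δ (E * Z) hug hδ hug4 hQ0 hT hT8 (by linarith)
  set G : Col (n₁ + n₂) κ → ℝ := fun x => V (fstc x) (sndc x) with hG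
  set B : κ → Col (n₁ + n₂) κ → ℝ := fun k x => R k (fstc x) * (SS J k (sndc x) + 1 / R₂) with hB
  set e20 : ℝ := Real.exp (20 * ∑ i, g₂ i) with he20
  have he0 : 0 < e20 := Real.exp_pos _
  -- the majorants
  have hup : ∀ k, EE (Fin.append g₁ g₂) (fun x => (G x) ^ 2 * B k x) ≤
      4 * rho g₁ 1 * (τ * Z + (δ ^ 2 * Z + E * Z)) + ((1 / 3) ^ J + 1 / R₂) *
        (2 * rho g₁ 1 * e20 * Z) := by
    intro k
    rw [EE_append]
    have h1 := avoid5 H HR hτ0 hτ1 hg₁ hg₁u hρ1 Q δ (E * Z) hug hδ hQ0 hm1 hT k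
    have h2 := moment5 H HR hτ1 hg₁ hg₁u hρ1 Q hug htg hm1 k
    have h3 : EE g₁ (fun x₁ => EE g₂ (fun x₂ =>
        (G (Fin.append x₁ x₂)) ^ 2 * B k (Fin.append x₁ x₂))) ≤
        EE g₁ (fun x₁ : Col n₁ κ => EE g₂ (fun x₂ : Col n₂ κ =>
          R k x₁ * ((if (∀ i, x₂ i ≠ some k) then 1 else 0) * (V x₁ x₂) ^ 2)) +
          ((1 / 3) ^ J + 1 / R₂) * EE g₂ (fun x₂ : Col n₂ κ => R k x₁ *
            ((∏ i, if x₂ i = some k then (1:ℝ) + 3 else 1) * (V x₁ x₂) ^ 2))) := by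
      apply EE_mono hw₁
      intro x₁
      rw [← EE_smul, ← EE_add]
      apply EE_mono hw
      intro x₂
      have h4 := SS_upper J hJ 3 (by norm_num) k x₂
      have h6 : G (Fin.append x₁ x₂) = V x₁ x₂ := by
        simp only [hG]
        rw [fstc_append, sndc_append]
      have h6' : B k (Fin.append x₁ x₂) = R k x₁ * (SS J k x₂ + 1 / R₂) := by
        simp only [hB]
        rw [fstc_append, sndc_append]
      rw [h6, h6']
      have h8 : (1:ℝ) ≤ ∏ i, if x₂ i = some k then (1:ℝ) + 3 else 1 := by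
        have e0 : (1:ℝ) = ∏ _i : Fin n₂, (1:ℝ) := by simp
        refine le_trans (le_of_eq e0) ?_
        apply Finset.prod_le_prod (fun _ _ => zero_le_one)
        intro i _
        split_ifs <;> norm_num
      have h9 : 0 ≤ 1 / R₂ := by positivity
      have h10 : SS J k x₂ + 1 / R₂ ≤ (if ∀ i, x₂ i ≠ some k then (1 : ℝ) else 0) +
          ((1 / 3) ^ J + 1 / R₂) * ∏ i, (if x₂ i = some k then 1 + 3 else 1) := by
        have := mul_le_mul_of_nonneg_left h8 h9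
        nlinarith
      have h11 : 0 ≤ R k x₁ * (V x₁ x₂) ^ 2 := mul_nonneg (HR.nn k x₁) (sq_nonneg _)
      have h7 := mul_le_mul_of_nonneg_left h10 h11
      refine le_trans (le_of_eq ?_) (h7.trans (le_of_eq ?_))
      · ring
      · ring
    refine h3.trans ?_
    rw [EE_add, EE_smul]
    have h9 := mul_le_mul_of_nonneg_left h2 (show (0:ℝ) ≤ (1 / 3) ^ J + 1 / R₂ by positivity)
    exact add_le_add h1 h9
  set F : Col (n₁ + n₂) κ → ℝ := fun x => G x ^ 2 * (1 - ∑ k, B k x) with hF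
  have hEF : Z / 2 ≤ EE (Fin.append g₁ g₂) F := by
    have e1 : EE (Fin.append g₁ g₂) F = EE (Fin.append g₁ g₂) (fun x => (G x) ^ 2) -
        ∑ k, EE (Fin.append g₁ g₂) (fun x => (G x) ^ 2 * B k x) := by
      rw [← EE_sum, ← EE_sub]
      congr 1
      funext x
      rw [hF]
      simp only
      rw [← Finset.mul_sum]
      ring
    have e0 : EE (Fin.append g₁ g₂) (fun x => (G x) ^ 2) =
        EE g₁ (fun x₁ => EE g₂ (fun x₂ => (V x₁ x₂) ^ 2)) := by
      rw [EE_append]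
      simp only [hG, fstc_append, sndc_append]
    rw [e1, e0]
    have e2 : ∑ k : κ, EE (Fin.append g₁ g₂) (fun x => (G x) ^ 2 * B k x) ≤
        u * (4 * rho g₁ 1 * (τ * Z + (δ ^ 2 * Z + E * Z)) + ((1 / 3) ^ J + 1 / R₂) *
        (2 * rho g₁ 1 * e20 * Z)) := by
      refine (Finset.sum_le_sum (fun k _ => hup k)).trans ?_
      rw [Finset.sum_const, Finset.card_univ, nsmul_eq_mul]
    have hZ0 : 0 ≤ Z := by linarith
    have e3 : u * (4 * rho g₁ 1 * (τ * Z + (δ ^ 2 * Z + E * Z))) ≤ 1 / 12 * Z := by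
      have := mul_le_mul_of_nonneg_right htail hZ0
      linarith
    have e4 : u * ((1 / 3) ^ J * (2 * rho g₁ 1 * e20 * Z)) ≤ 1 / 12 * Z := by
      have := mul_le_mul_of_nonneg_right hmom hZ0
      linarith
    have e5 : u * (1 / R₂ * (2 * rho g₁ 1 * e20 * Z)) ≤ 1 / 12 * Z := by
      have h0 : 2 * (u * rho g₁ 1) * e20 * (1 / R₂) ≤ R₂ / 12 * (1 / R₂) :=
        mul_le_mul_of_nonneg_right hpen (by positivity)
      have h1 : R₂ / 12 * (1 / R₂) = 1 / 12 := by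
        have : R₂ ≠ 0 := by positivity
        field_simp
      rw [h1] at h0
      have := mul_le_mul_of_nonneg_right h0 hZ0
      linarith
    nlinarith
  -- coefficient sum of `F`
  have hCB0 : 0 ≤ CB := le_trans (by positivity) hCB
  have hyy1 : ∀ D : Col n₂ κ, |yT p h Q D| ≤ 1 := by
    intro D
    unfold yT
    split_ifs
    · exact yy_abs_le H.h0 H.h1 D
    · simp
  have hcolr : ∀ D : Col n₂ κ, yT p h Q D ≠ 0 → (cols D).card ≤ r := by
    intro D hD
    have := (card_cols H Q D hD).trans hr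
    exact_mod_cast this
  have hGL : Lw (Λ ^ r * CB) G := by
    have e1 := Lw_V5 (n₁ := n₁) (κ := κ) g₂ (fun i => (H.g0 i).le) hg1 p (yT p h Q) hyy1 Q (by
      intro D hD
      by_contra hc
      exact hD (by unfold yT; rw [if_neg hc])) R Λ hΛ hRL r hcolr
    refine Lw_mono ?_ e1
    apply mul_le_mul_of_nonneg_left _ (by positivity)
    exact (count_sharp (κ := κ) p hp1 s hs Q hQ0).trans hCB
  have hSL : Lw (1 + u * (Λ * (((n₂:ℝ) + 1) ^ J + 1)))
      (fun x : Col (n₁ + n₂) κ => 1 - ∑ k, B k x) := by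
    have e1 : Lw 1 (fun _ : Col (n₁ + n₂) κ => (1:ℝ)) := by
      have := Lw_const (n := n₁ + n₂) (κ := κ) 1
      simpa using this
    have eB : ∀ k, Lw (Λ * (((n₂:ℝ) + 1) ^ J + 1)) (B k) := by
      intro k
      have e3 : Lw (((n₂:ℝ) + 1) ^ J + 1) (fun x : Col (n₁ + n₂) κ => SS J k (sndc x) + 1 / R₂) := by
        have e4 : Lw (((n₂:ℝ) + 1) ^ J) (fun x : Col (n₁ + n₂) κ => SS J k (sndc x)) :=
          Lw_snd (Lw_SS J k)
        have e5 : Lw 1 (fun _ : Col (n₁ + n₂) κ => -(1 / R₂)) := by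
          have := Lw_const (n := n₁ + n₂) (κ := κ) (-(1 / R₂))
          refine Lw_mono ?_ this
          rw [abs_neg, abs_of_nonneg (by positivity)]
          rw [div_le_one (by linarith)]
          exact hR₂
        have e6 := Lw_sub e4 e5
        have e7 : (fun x : Col (n₁ + n₂) κ => SS J k (sndc x) + 1 / R₂) =
            fun x => SS J k (sndc x) - (-(1 / R₂)) := by
          funext x
          ring
        rw [e7]
        exact e6
      exact Lw_mul (Lw_fst (hRL k)) e3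
    have e2 := Lw_sum (n := n₁ + n₂) (univ : Finset κ) (fun _ => Λ * (((n₂:ℝ) + 1) ^ J + 1))
      (fun k => B k) (fun k _ => eB k)
    have e3 := Lw_sub e1 e2
    refine Lw_mono ?_ e3
    rw [Finset.sum_const, Finset.card_univ, nsmul_eq_mul]
  have hFL : Lw ((Λ ^ r * CB) ^ 2 * (1 + u * (Λ * (((n₂:ℝ) + 1) ^ J + 1)))) F := by
    have e1 := Lw_mul (Lw_mul hGL hGL) hSL
    have e2 : F = fun x => G x * G x * (1 - ∑ k, B k x) := by
      rw [hF]; funext x; ring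
    rw [e2]
    refine Lw_mono (le_of_eq (by ring)) e1
  have htr := transfer_w 𝒜 col (Fin.append g₁ g₂) N Err _ hErr hcnt F hFL
  have hpos : 3 / 8 * N ≤ ∑ a ∈ 𝒜, F (col a) := by
    have e1 := (abs_le.mp htr).1
    have e2 : N / 2 ≤ N * EE (Fin.append g₁ g₂) F := by nlinarith
    linarith
  set Bd : ℝ := 3 * (1 + 3 * Real.exp (∑ i, g₂ i) * ((J : ℝ) + 2) ^ (2 * J) * (R₂ + 1)) ^ r
    with hBd
  have hpt : ∀ a ∈ 𝒜, F (col a) ≤ if (∀ k, ∃ i, col a i = some k) then Bd ^ 2 else 0 := by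
    intro a _
    have hV0 : 0 ≤ G (col a) ^ 2 := sq_nonneg _
    have hSS0 : ∀ l, 0 ≤ SS J l (sndc (col a)) := by
      intro l
      refine le_trans ?_ (SS_lower J hJ l (sndc (col a)))
      split_ifs <;> norm_num
    have hR0 : ∀ l, 0 ≤ R l (fstc (col a)) := fun l => HR.nn l _
    have hiR : 0 < 1 / R₂ := by positivity
    have hB0 : ∀ l, 0 ≤ B l (col a) := by
      intro l
      simp only [hB]
      have := hSS0 l
      exact mul_nonneg (hR0 l) (by linarith)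
    by_cases h1 : 1 ≤ ∑ k, B k (col a)
    · have h2 : F (col a) ≤ 0 := mul_nonpos_of_nonneg_of_nonpos hV0 (by linarith)
      refine h2.trans ?_
      split_ifs
      · exact sq_nonneg _
      · exact le_rfl
    · push Not at h1
      have hk1 : ∀ k, B k (col a) < 1 := fun k =>
        lt_of_le_of_lt (Finset.single_le_sum (fun l _ => hB0 l) (Finset.mem_univ k)) h1
      have hall : ∀ k, ∃ i, col a i = some k := by
        intro k
        by_contra hk
        push Not at hk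
        have h3 := SS_lower J hJ k (sndc (col a))
        have hk2 : ∀ i, sndc (col a) i ≠ some k := fun i => hk (Fin.natAdd n₁ i)
        rw [if_pos hk2] at h3
        have h4 : R k (fstc (col a)) = 1 := HR.one k _ (fun i => hk (Fin.castAdd n₂ i))
        have h5 := hk1 k
        simp only [hB] at h5
        rw [h4] at h5
        linarith
      rw [if_pos hall]
      have hs1 : ∑ k, R k (fstc (col a)) * SS J k (sndc (col a)) ≤ 1 := by
        refine le_trans (Finset.sum_le_sum fun k _ => ?_) h1.le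
        simp only [hB]
        exact mul_le_mul_of_nonneg_left (by linarith) (hR0 k)
      have hs2 : ∑ k, R k (fstc (col a)) ≤ R₂ := by
        have e1 : (1 / R₂) * ∑ k, R k (fstc (col a)) ≤ 1 := by
          rw [Finset.mul_sum]
          refine le_trans (Finset.sum_le_sum fun k _ => ?_) h1.le
          simp only [hB]
          rw [mul_comm]
          exact mul_le_mul_of_nonneg_left (by linarith [hSS0 k]) (hR0 k)
        have e2 := mul_le_mul_of_nonneg_left e1 (show (0:ℝ) ≤ R₂ by linarith)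
        have e3 : R₂ * (1 / R₂ * ∑ k, R k (fstc (col a))) = ∑ k, R k (fstc (col a)) := by
          have : R₂ ≠ 0 := by positivity
          field_simp
        rw [e3, mul_one] at e2
        exact e2
      have hVb : |G (col a)| ≤ Bd := by
        rw [hBd]
        refine V5_le g₂ (fun i => (H.g0 i).le) (yT p h Q) hyy1 R J m₀ r hJ hm₀ ?_
          (fstc (col a)) (sndc (col a)) hR0 R₂ hs2 hs1
        intro D hD
        refine ⟨hcolr D hD, fun k => ?_⟩
        by_cases hf : (fib D k).Nonempty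
        · apply hcard
          intro h0
          apply hD
          unfold yT
          split_ifs
          · unfold yy
            apply Finset.prod_eq_zero (Finset.mem_univ k)
            unfold al
            rw [if_neg hf.ne_empty, h0]
            simp
          · rfl
        · rw [Finset.not_nonempty_iff_eq_empty] at hf
          rw [hf, Finset.card_empty]
          exact Nat.zero_le _
      have h7 : G (col a) ^ 2 ≤ Bd ^ 2 := by
        rw [← sq_abs]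
        exact pow_le_pow_left₀ (abs_nonneg _) hVb 2
      have h8 : 0 ≤ ∑ k, B k (col a) := Finset.sum_nonneg fun k _ => hB0 k
      calc F (col a) = G (col a) ^ 2 * (1 - ∑ k, B k (col a)) := rfl
        _ ≤ G (col a) ^ 2 * 1 := mul_le_mul_of_nonneg_left (by linarith) hV0
        _ ≤ Bd ^ 2 := by linarith
  refine hpos.trans ((Finset.sum_le_sum hpt).trans (le_of_eq ?_))
  rw [← Finset.sum_filter, Finset.sum_const, nsmul_eq_mul]

end Pool.Agent.Y831.RC
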