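import Pool.Agent.Y831.RC5.BH

set_option autoImplicit false
set_option linter.unusedSectionVars false

/-! # The covering sieve with majorants for single colours in the first block -/

namespace Pool.Agent.Y831.RC

open Finset Pool.Agent.H256R2.SC

variable {n n₁ n₂ : ℕ} {κ : Type} [Fintype κ] [DecidableEq κ]

/-- the majorants of the first block -/
structure BHyp (g₁ : Fin n₁ → ℝ) (R : κ → Col n₁ κ → ℝ) (m : ℝ) (τ : ℝ) : Prop where
  nn : ∀ k x, 0 ≤ R k x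
  one : ∀ k x, (∀ i, x i ≠ some k) → R k x = 1
  up : ∀ K : Finset κ, (K.card : ℝ) ≤ m → ∀ a : κ → ℕ, (∀ k, 1 ≤ a k ∧ a k ≤ 3) →
    EE g₁ (fun x => ∏ k ∈ K, (R k x) ^ (a k)) ≤ (1 + τ) * rho g₁ K.card

/-- the sieve weight of the two blocks -/
noncomputable def V5 (g₂ : Fin n₂ → ℝ) (y : Col n₂ κ → ℝ) (R : κ → Col n₁ κ → ℝ)
    (x₁ : Col n₁ κ) (x₂ : Col n₂ κ) : ℝ := VV g₂ (fun D => y D * ∏ k ∈ cols D, R k x₁) x₂

theorem fib_er_none {k : κ} {D : Col n κ} (h : k ∉ cols D) : er k D = D := by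
  funext i
  unfold er
  rw [if_neg]
  intro hi
  apply h
  rw [mem_cols]
  exact ⟨i, mem_fib.2 hi⟩

theorem cols_er (k : κ) (D : Col n κ) : cols (er k D) = (cols D).erase k := by
  ext l
  rw [mem_cols, Finset.mem_erase, mem_cols]
  by_cases hl : l = k
  · subst hl
    rw [E_fib_er_self]
    simp
  · rw [E_fib_er_ne hl]
    simp [hl]

section
variable {g₁ : Fin n₁ → ℝ} {R : κ → Col n₁ κ → ℝ} {m τ : ℝ}

theorem BHyp.lower (HR : BHyp g₁ R m τ) (hw₁ : ∀ i (c : Option κ), 0 ≤ wt (g₁ i) c)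
    (K : Finset κ) (a : κ → ℕ) :
    rho g₁ K.card ≤ EE g₁ (fun x => ∏ k ∈ K, (R k x) ^ (a k)) := by
  rw [← EE_no_hit]
  apply EE_mono hw₁
  intro x
  by_cases hx : ∀ k ∈ K, ∀ i, x i ≠ some k
  · have e1 : ∏ k ∈ K, (R k x) ^ (a k) = 1 := by
      apply Finset.prod_eq_one
      intro k hk
      rw [HR.one k x (hx k hk), one_pow]
    rw [e1]
    apply Finset.prod_le_one
    · intro i _
      split_ifs <;> norm_num
    · intro i _
      split_ifs <;> norm_num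
  · push Not at hx
    obtain ⟨k, hk, i, hi⟩ := hx
    rw [Finset.prod_eq_zero (Finset.mem_univ i) (by rw [if_pos (by simp [pk, hi, hk])])]
    exact Finset.prod_nonneg fun k _ => pow_nonneg (HR.nn k x) _

/-- a new colour, third power -/
theorem BHyp.up_new (HR : BHyp g₁ R m τ) (hτ1 : τ ≤ 1) (hg₁ : ∀ i, 0 ≤ g₁ i)
    (hg₁u : ∀ i, (Fintype.card κ : ℝ) * g₁ i ≤ 1 / 2) (K : Finset κ) (k : κ) (hk : k ∉ K)
    (hK : (K.card : ℝ) + 1 ≤ m) (b : ℕ) (hb : 1 ≤ b ∧ b ≤ 3) :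
    EE g₁ (fun x => (∏ l ∈ K, (R l x) ^ 2) * (R k x) ^ b) ≤ 2 * (rho g₁ 1 * rho g₁ K.card) := by
  have h1 := HR.up (insert k K) (by rw [Finset.card_insert_of_notMem hk]; push_cast; exact hK)
    (fun l => if l = k then b else 2) (by
      intro l
      split_ifs
      · exact hb
      · norm_num)
  rw [Finset.card_insert_of_notMem hk] at h1
  have h2 : (fun x => ∏ l ∈ insert k K, (R l x) ^ (if l = k then b else 2)) =
      fun x => (∏ l ∈ K, (R l x) ^ 2) * (R k x) ^ b := by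
    funext x
    rw [Finset.prod_insert hk, if_pos rfl, mul_comm]
    congr 1
    refine Finset.prod_congr rfl fun l hl => ?_
    have hne : l ≠ k := fun h => hk (h ▸ hl)
    rw [if_neg hne]
  rw [h2] at h1
  have h3 : rho g₁ (K.card + 1) ≤ rho g₁ 1 * rho g₁ K.card := by
    apply rho_step hg₁ hg₁u
    rw [← Finset.card_insert_of_notMem hk]
    exact Finset.card_le_univ _
  have h4 : 0 ≤ rho g₁ (K.card + 1) := by
    apply rho_nonneg hg₁ hg₁u
    rw [← Finset.card_insert_of_notMem hk]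
    exact Finset.card_le_univ _
  nlinarith

/-- the error of the majorant -/
theorem BHyp.err (HR : BHyp g₁ R m τ) (hτ0 : 0 ≤ τ) (hg₁ : ∀ i, 0 ≤ g₁ i)
    (hw₁ : ∀ i (c : Option κ), 0 ≤ wt (g₁ i) c)
    (hg₁u : ∀ i, (Fintype.card κ : ℝ) * g₁ i ≤ 1 / 2) (K : Finset κ) (k : κ) (hk : k ∉ K)
    (hK : (K.card : ℝ) + 1 ≤ m) :
    EE g₁ (fun x => (∏ l ∈ K, (R l x) ^ 2) * (R k x * (1 - R k x) ^ 2)) ≤
      2 * τ * (rho g₁ 1 * rho g₁ K.card) := by
  classical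
  have hcard : (insert k K).card = K.card + 1 := Finset.card_insert_of_notMem hk
  have hb : ∀ b : ℕ, 1 ≤ b ∧ b ≤ 3 →
      EE g₁ (fun x => (∏ l ∈ K, (R l x) ^ 2) * (R k x) ^ b) ≤ (1 + τ) * rho g₁ (K.card + 1) := by
    intro b hb
    have h1 := HR.up (insert k K) (by rw [hcard]; push_cast; exact hK)
      (fun l => if l = k then b else 2) (by
        intro l
        split_ifs
        · exact hb
        · norm_num)
    rw [hcard] at h1
    have h2 : (fun x => ∏ l ∈ insert k K, (R l x) ^ (if l = k then b else 2)) =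
        fun x => (∏ l ∈ K, (R l x) ^ 2) * (R k x) ^ b := by
      funext x
      rw [Finset.prod_insert hk, if_pos rfl, mul_comm]
      congr 1
      refine Finset.prod_congr rfl fun l hl => ?_
      have hne : l ≠ k := fun h => hk (h ▸ hl)
      rw [if_neg hne]
    rw [h2] at h1
    exact h1
  have h3 : rho g₁ (K.card + 1) ≤
      EE g₁ (fun x => (∏ l ∈ K, (R l x) ^ 2) * (if ∀ i, x i ≠ some k then (1:ℝ) else 0)) := by
    rw [← hcard, ← EE_no_hit]
    apply EE_mono hw₁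
    intro x
    by_cases hx : ∀ l ∈ insert k K, ∀ i, x i ≠ some l
    · rw [if_pos (hx k (Finset.mem_insert_self k K)), mul_one]
      have e1 : ∏ l ∈ K, (R l x) ^ 2 = 1 := by
        apply Finset.prod_eq_one
        intro l hl
        rw [HR.one l x (hx l (Finset.mem_insert_of_mem hl)), one_pow]
      rw [e1]
      apply Finset.prod_le_one
      · intro i _
        split_ifs <;> norm_num
      · intro i _
        split_ifs <;> norm_num
    · push Not at hx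
      obtain ⟨l, hl, i, hi⟩ := hx
      rw [Finset.prod_eq_zero (Finset.mem_univ i) (by rw [if_pos (by simp only [pk, hi]; rw [if_pos hl])])]
      apply mul_nonneg
      · exact Finset.prod_nonneg fun l _ => sq_nonneg _
      · split_ifs <;> norm_num
  have h4 : EE g₁ (fun x => (∏ l ∈ K, (R l x) ^ 2) * (R k x * (1 - R k x) ^ 2)) ≤
      EE g₁ (fun x => (∏ l ∈ K, (R l x) ^ 2) * (R k x) ^ 1 +
        ((∏ l ∈ K, (R l x) ^ 2) * (R k x) ^ 3 -
        2 * ((∏ l ∈ K, (R l x) ^ 2) * (if ∀ i, x i ≠ some k then (1:ℝ) else 0)))) := by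
    apply EE_mono hw₁
    intro x
    have hP : 0 ≤ ∏ l ∈ K, (R l x) ^ 2 := Finset.prod_nonneg fun l _ => sq_nonneg _
    have hR := HR.nn k x
    have h5 : R k x * (1 - R k x) ^ 2 ≤ (R k x) ^ 1 + ((R k x) ^ 3 -
        2 * (if ∀ i, x i ≠ some k then (1:ℝ) else 0)) := by
      by_cases hx : ∀ i, x i ≠ some k
      · rw [HR.one k x hx, if_pos hx]
        norm_num
      · rw [if_neg hx]
        nlinarith [sq_nonneg (R k x)]
    have := mul_le_mul_of_nonneg_left h5 hP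
    linarith
  refine h4.trans ?_
  rw [EE_add, EE_sub, EE_smul]
  have h5 := hb 1 (by norm_num)
  have h6 := hb 3 (by norm_num)
  have h7 : rho g₁ (K.card + 1) ≤ rho g₁ 1 * rho g₁ K.card := by
    apply rho_step hg₁ hg₁u
    rw [← hcard]
    exact Finset.card_le_univ _
  nlinarith

end

theorem red_not_avoid (g : Fin n → ℝ) (y : Col n κ → ℝ) (k : κ) (D : Col n κ) (hD : k ∈ cols D) :
    red g y k D = 0 := by
  unfold red
  apply Finset.sum_eq_zero
  intro E hE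
  exfalso
  rw [Finset.mem_filter] at hE
  have h1 : cols D = (cols E).erase k := by rw [← hE.2, cols_er]
  rw [h1] at hD
  exact absurd rfl (Finset.ne_of_mem_erase hD)

/-- the reduced coefficients of the product weights -/
theorem red_V5 (g₂ : Fin n₂ → ℝ) (y : Col n₂ κ → ℝ) (R : κ → Col n₁ κ → ℝ) (x₁ : Col n₁ κ)
    (k : κ) (D : Col n₂ κ) (hD : k ∉ cols D) :
    red g₂ (fun E => y E * ∏ l ∈ cols E, R l x₁) k D =
      (∏ l ∈ cols D, R l x₁) * ((1 - R k x₁) * y D + R k x₁ * red g₂ y k D) := by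
  have hDD : er k D = D := fib_er_none hD
  have hfib : fib D k = ∅ := by
    rw [← Finset.not_nonempty_iff_eq_empty, ← mem_cols]
    exact hD
  set T : Finset (Col n₂ κ) := univ.filter (fun E => er k E = D) with hT
  have hDT : D ∈ T := by rw [hT, Finset.mem_filter]; exact ⟨Finset.mem_univ _, hDD⟩
  have h1 : red g₂ y k D = y D + ∑ E ∈ T.erase D, y E * ∏ i ∈ fib E k, (-(g₂ i)) := by
    unfold red
    rw [← Finset.add_sum_erase T _ hDT, hfib, Finset.prod_empty, mul_one]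
  have h2 : red g₂ (fun E => y E * ∏ l ∈ cols E, R l x₁) k D = y D * ∏ l ∈ cols D, R l x₁ +
      ∑ E ∈ T.erase D, (y E * ∏ l ∈ cols E, R l x₁) * ∏ i ∈ fib E k, (-(g₂ i)) := by
    unfold red
    rw [← Finset.add_sum_erase T _ hDT, hfib, Finset.prod_empty, mul_one]
  have h3 : ∀ E ∈ T.erase D, (y E * ∏ l ∈ cols E, R l x₁) * ∏ i ∈ fib E k, (-(g₂ i)) =
      ((∏ l ∈ cols D, R l x₁) * R k x₁) * (y E * ∏ i ∈ fib E k, (-(g₂ i))) := by
    intro E hE
    have hE1 := Finset.ne_of_mem_erase hE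
    have hE2 := (Finset.mem_filter.1 (Finset.mem_of_mem_erase hE)).2
    have hkE : k ∈ cols E := by
      by_contra hc
      exact hE1 ((fib_er_none hc).symm.trans hE2)
    have h4 : cols D = (cols E).erase k := by rw [← hE2, cols_er]
    have h5 : ∏ l ∈ cols E, R l x₁ = (∏ l ∈ cols D, R l x₁) * R k x₁ := by
      rw [h4, mul_comm, Finset.mul_prod_erase (cols E) (fun l => R l x₁) hkE]
    rw [h5]
    ring
  rw [h2, Finset.sum_congr rfl h3, ← Finset.mul_sum, h1]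
  ring

section
variable {p g₂ : Fin n₂ → ℝ} {h : Finset (Fin n₂) → ℝ} {z K v₀ : ℝ} {g₁ : Fin n₁ → ℝ}
  {R : κ → Col n₁ κ → ℝ} {m τ : ℝ}

theorem lower5 (H : HypS p g₂ h z K v₀) (HR : BHyp g₁ R m τ) (hg₁ : ∀ i, 0 ≤ g₁ i)
    (hg₁u : ∀ i, (Fintype.card κ : ℝ) * g₁ i ≤ 1 / 2) (Q δ T : ℝ)
    (hug : ∀ i, (Fintype.card κ : ℝ) * g₂ i ≤ 1)
    (hδ : ∀ D : Col n₂ κ, qq p D ≤ Q → 2 * ∑ i with D i ≠ none, g₂ i ≤ δ)
    (hug4 : (Fintype.card κ : ℝ) * δ ≤ 1 / 4) (hQ0 : 0 < Q)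
    (hT : ∑ D : Col n₂ κ with Q / z < qq p D, om g₁ D * ((yy h D) ^ 2 * nu g₂ D) ≤ T)
    (hT8 : T ≤ 1 / 8 * Zw (om g₁ : Col n₂ κ → ℝ) g₂ h)
    (hZ0 : 0 ≤ Zw (om g₁ : Col n₂ κ → ℝ) g₂ h) :
    3 / 4 * Zw (om g₁ : Col n₂ κ → ℝ) g₂ h ≤
      EE g₁ (fun x₁ : Col n₁ κ => EE g₂ (fun x₂ : Col n₂ κ => (V5 g₂ (yT p h Q) R x₁ x₂) ^ 2)) := by
  have hw : ∀ i (c : Option κ), 0 ≤ wt (g₂ i) c := fun i c => wt_nonneg (H.g0 i).le (hug i) c
  have hw₁ : ∀ i (c : Option κ), 0 ≤ wt (g₁ i) c := fun i c =>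
    wt_nonneg (hg₁ i) (by linarith [hg₁u i]) c
  set B : Col n₂ κ → ℝ := fun D =>
    ∏ i, (nu1 (g₂ i) (D i) * nu1 (1 - (Fintype.card κ : ℝ) * g₂ i) (D i)) with hB
  have hB0 : ∀ D, 0 ≤ B D := by
    intro D
    apply Finset.prod_nonneg
    intro i _
    cases D i with
    | none => simp [nu1]
    | some k =>
      simp only [nu1]
      exact mul_nonneg (H.g0 i).le (by linarith [hug i])
  have h1 : EE g₁ (fun x₁ : Col n₁ κ => ∑ D : Col n₂ κ, B D * (yT p h Q D) ^ 2 *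
      ∏ k ∈ cols D, (R k x₁) ^ 2) ≤
      EE g₁ (fun x₁ : Col n₁ κ => EE g₂ (fun x₂ : Col n₂ κ => (V5 g₂ (yT p h Q) R x₁ x₂) ^ 2)) := by
    apply EE_mono hw₁
    intro x₁
    refine le_trans (le_of_eq ?_) (tensor_lower (κ := κ) g₂
      (fun i c => nu1 (g₂ i) c * nu1 (1 - (Fintype.card κ : ℝ) * g₂ i) c) hw
      (by
        intro i c
        cases c with
        | none => simp [nu1]
        | some k =>
          simp only [nu1]
          exact mul_nonneg (H.g0 i).le (by linarith [hug i]))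
      (fun i Y => local_lower (g₂ i) (H.g0 i).le Y) (fun D => yT p h Q D * ∏ k ∈ cols D, R k x₁))
    refine Finset.sum_congr rfl fun D _ => ?_
    simp only [hB]
    rw [Finset.prod_pow]
    ring
  refine le_trans ?_ h1
  rw [EE_sum]
  have h2 : ∀ D : Col n₂ κ, (if qq p D ≤ Q then 7 / 8 * (om g₁ D * ((yy h D) ^ 2 * nu g₂ D)) else 0) ≤
      EE g₁ (fun x₁ : Col n₁ κ => B D * (yT p h Q D) ^ 2 * ∏ k ∈ cols D, (R k x₁) ^ 2) := by
    intro D
    rw [EE_smul]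
    have e0 := HR.lower hw₁ (cols D) (fun _ => 2)
    have e00 : 0 ≤ om g₁ D := om_nonneg hg₁ hg₁u D
    unfold yT
    split_ifs with hD
    · have e1 : 7 / 8 * nu g₂ D ≤ B D := by
        simp only [hB]
        rw [Finset.prod_mul_distrib]
        have e1 : ∏ i, nu1 (1 - (Fintype.card κ : ℝ) * g₂ i) (D i) =
            ∏ i ∈ Pool.Agent.H256R2.SC.supp D, (1 - (Fintype.card κ : ℝ) * g₂ i) := prod_nu1 _ D
        rw [e1]
        have e2 : 7 / 8 ≤ ∏ i ∈ Pool.Agent.H256R2.SC.supp D, (1 - (Fintype.card κ : ℝ) * g₂ i) := by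
          refine le_trans ?_ (prod_ge_one_sub_sum (Pool.Agent.H256R2.SC.supp D)
            (fun i => (Fintype.card κ : ℝ) * g₂ i)
            (fun i => mul_nonneg (Nat.cast_nonneg _) (H.g0 i).le) hug)
          rw [← Finset.mul_sum]
          have e3 := hδ D hD
          have e4 : ∑ i ∈ Pool.Agent.H256R2.SC.supp D, g₂ i ≤ δ / 2 := by
            unfold Pool.Agent.H256R2.SC.supp
            linarith
          have e5 : (Fintype.card κ : ℝ) * ∑ i ∈ Pool.Agent.H256R2.SC.supp D, g₂ i ≤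
              (Fintype.card κ : ℝ) * (δ / 2) :=
            mul_le_mul_of_nonneg_left e4 (Nat.cast_nonneg _)
          nlinarith
        have e6 : 0 ≤ nu g₂ D := nu_nonneg H.g0 D
        have e7 : ∏ i, nu1 (g₂ i) (D i) = nu g₂ D := rfl
        rw [e7]
        nlinarith
      have e2 : 7 / 8 * nu g₂ D * (yy h D) ^ 2 ≤ B D * (yy h D) ^ 2 :=
        mul_le_mul_of_nonneg_right e1 (sq_nonneg _)
      have e3 : 0 ≤ B D * (yy h D) ^ 2 := mul_nonneg (hB0 D) (sq_nonneg _)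
      calc 7 / 8 * (om g₁ D * ((yy h D) ^ 2 * nu g₂ D)) =
            (7 / 8 * nu g₂ D * (yy h D) ^ 2) * om g₁ D := by ring
        _ ≤ (B D * (yy h D) ^ 2) * om g₁ D := mul_le_mul_of_nonneg_right e2 e00
        _ ≤ _ := mul_le_mul_of_nonneg_left e0 e3
    · simp
  refine le_trans ?_ (Finset.sum_le_sum (fun D _ => h2 D))
  rw [← Finset.sum_filter, ← Finset.mul_sum]
  have h3 : Zw (om g₁ : Col n₂ κ → ℝ) g₂ h =
      ∑ D : Col n₂ κ with qq p D ≤ Q, om g₁ D * ((yy h D) ^ 2 * nu g₂ D) +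
      ∑ D : Col n₂ κ with ¬ qq p D ≤ Q, om g₁ D * ((yy h D) ^ 2 * nu g₂ D) := by
    unfold Zw
    rw [Finset.sum_filter_add_sum_filter_not]
  have h4 : ∑ D : Col n₂ κ with ¬ qq p D ≤ Q, om g₁ D * ((yy h D) ^ 2 * nu g₂ D) ≤
      ∑ D : Col n₂ κ with Q / z < qq p D, om g₁ D * ((yy h D) ^ 2 * nu g₂ D) := by
    apply Finset.sum_le_sum_of_subset_of_nonneg
    · intro D hD
      rw [Finset.mem_filter] at hD ⊢
      refine ⟨hD.1, lt_of_le_of_lt ?_ (not_le.mp hD.2)⟩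
      exact div_le_self hQ0.le H.z1.le
    · intro D _ _
      exact mul_nonneg (om_nonneg hg₁ hg₁u D) (mul_nonneg (sq_nonneg _) (nu_nonneg H.g0 D))
  linarith

theorem yT_sq_le (Q : ℝ) (D : Col n₂ κ) : (yT p h Q D) ^ 2 ≤ (yy h D) ^ 2 := by
  unfold yT
  split_ifs
  · exact le_rfl
  · simpa using sq_nonneg (yy h D)

theorem avoid5 (H : HypS p g₂ h z K v₀) (HR : BHyp g₁ R m τ) (hτ0 : 0 ≤ τ) (hτ1 : τ ≤ 1)
    (hg₁ : ∀ i, 0 ≤ g₁ i)
    (hg₁u : ∀ i, (Fintype.card κ : ℝ) * g₁ i ≤ 1 / 2) (hρ1 : 0 ≤ rho g₁ 1) (Q δ T : ℝ)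
    (hug : ∀ i, (Fintype.card κ : ℝ) * g₂ i ≤ 1)
    (hδ : ∀ D : Col n₂ κ, qq p D ≤ Q → 2 * ∑ i with D i ≠ none, g₂ i ≤ δ) (hQ0 : 0 < Q)
    (hm : Real.log Q / v₀ + 1 ≤ m)
    (hT : ∑ D : Col n₂ κ with Q / z < qq p D, om g₁ D * ((yy h D) ^ 2 * nu g₂ D) ≤ T) (k : κ) :
    EE g₁ (fun x₁ : Col n₁ κ => EE g₂ (fun x₂ : Col n₂ κ =>
      R k x₁ * ((if ∀ i, x₂ i ≠ some k then 1 else 0) *
        (V5 g₂ (yT p h Q) R x₁ x₂) ^ 2))) ≤
      4 * rho g₁ 1 * (τ * Zw (om g₁ : Col n₂ κ → ℝ) g₂ h +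
        (δ ^ 2 * Zw (om g₁ : Col n₂ κ → ℝ) g₂ h + T)) := by
  have hw : ∀ i (c : Option κ), 0 ≤ wt (g₂ i) c := fun i c => wt_nonneg (H.g0 i).le (hug i) c
  have hw₁ : ∀ i (c : Option κ), 0 ≤ wt (g₁ i) c := fun i c =>
    wt_nonneg (hg₁ i) (by linarith [hg₁u i]) c
  have h1 : EE g₁ (fun x₁ : Col n₁ κ => EE g₂ (fun x₂ : Col n₂ κ =>
      R k x₁ * ((if ∀ i, x₂ i ≠ some k then 1 else 0) * (V5 g₂ (yT p h Q) R x₁ x₂) ^ 2))) ≤
      EE g₁ (fun x₁ : Col n₁ κ => ∑ D : Col n₂ κ, (if k ∈ cols D then 0 else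
        ((2 * nu g₂ D * (yT p h Q D) ^ 2) *
          ((∏ l ∈ cols D, (R l x₁) ^ 2) * (R k x₁ * (1 - R k x₁) ^ 2)) +
        (2 * nu g₂ D * (red g₂ (yT p h Q) k D) ^ 2) *
          ((∏ l ∈ cols D, (R l x₁) ^ 2) * (R k x₁) ^ 3)))) := by
    apply EE_mono hw₁
    intro x₁
    rw [EE_smul]
    have h2 := rough_bound g₂ (fun i => (H.g0 i).le) hw
      (fun D => yT p h Q D * ∏ l ∈ cols D, R l x₁) k
    refine (mul_le_mul_of_nonneg_left h2 (HR.nn k x₁)).trans ?_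
    rw [Finset.mul_sum]
    apply Finset.sum_le_sum
    intro D _
    split_ifs with hD
    · rw [red_not_avoid g₂ _ k D hD]
      simp
    · rw [red_V5 g₂ (yT p h Q) R x₁ k D hD, Finset.prod_pow]
      set P := ∏ l ∈ cols D, R l x₁ with hP
      set a := (1 - R k x₁) * yT p h Q D with ha
      set b := R k x₁ * red g₂ (yT p h Q) k D with hb
      have hab : (a + b) ^ 2 ≤ 2 * a ^ 2 + 2 * b ^ 2 := by nlinarith [sq_nonneg (a - b)]
      have hc : 0 ≤ R k x₁ * (nu g₂ D * P ^ 2) :=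
        mul_nonneg (HR.nn k x₁) (mul_nonneg (nu_nonneg H.g0 D) (sq_nonneg _))
      calc R k x₁ * (nu g₂ D * (P * (a + b)) ^ 2) = (R k x₁ * (nu g₂ D * P ^ 2)) * (a + b) ^ 2 := by
            ring
        _ ≤ (R k x₁ * (nu g₂ D * P ^ 2)) * (2 * a ^ 2 + 2 * b ^ 2) :=
            mul_le_mul_of_nonneg_left hab hc
        _ = _ := by rw [ha, hb]; ring
  refine h1.trans ?_
  rw [EE_sum]
  have h2 : ∀ D : Col n₂ κ, EE g₁ (fun x₁ : Col n₁ κ => (if k ∈ cols D then 0 else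
        ((2 * nu g₂ D * (yT p h Q D) ^ 2) *
          ((∏ l ∈ cols D, (R l x₁) ^ 2) * (R k x₁ * (1 - R k x₁) ^ 2)) +
        (2 * nu g₂ D * (red g₂ (yT p h Q) k D) ^ 2) *
          ((∏ l ∈ cols D, (R l x₁) ^ 2) * (R k x₁) ^ 3)))) ≤
      4 * rho g₁ 1 * (τ * (om g₁ D * ((yy h D) ^ 2 * nu g₂ D)) +
        om g₁ D * (nu g₂ D * (red g₂ (yT p h Q) k D) ^ 2)) := by
    intro D
    have hom : 0 ≤ om g₁ D := om_nonneg hg₁ hg₁u D
    have hν := nu_nonneg H.g0 D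
    by_cases hD : k ∈ cols D
    · simp only [if_pos hD]
      have h3 : EE g₁ (fun _ : Col n₁ κ => (0:ℝ)) = 0 := by
        unfold EE
        simp
      rw [h3]
      have e1 : 0 ≤ om g₁ D * ((yy h D) ^ 2 * nu g₂ D) := mul_nonneg hom (mul_nonneg (sq_nonneg _) hν)
      have e2 : 0 ≤ om g₁ D * (nu g₂ D * (red g₂ (yT p h Q) k D) ^ 2) :=
        mul_nonneg hom (mul_nonneg hν (sq_nonneg _))
      positivity
    · simp only [if_neg hD]
      rw [EE_add, EE_smul, EE_smul]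
      have hA : (2 * nu g₂ D * (yT p h Q D) ^ 2) *
          EE g₁ (fun x₁ => (∏ l ∈ cols D, (R l x₁) ^ 2) * (R k x₁ * (1 - R k x₁) ^ 2)) ≤
          4 * rho g₁ 1 * (τ * (om g₁ D * ((yy h D) ^ 2 * nu g₂ D))) := by
        by_cases h0 : yT p h Q D = 0
        · rw [h0]
          have e1 : 0 ≤ om g₁ D * ((yy h D) ^ 2 * nu g₂ D) :=
            mul_nonneg hom (mul_nonneg (sq_nonneg _) hν)
          simp only [ne_eq, OfNat.ofNat_ne_zero, not_false_eq_true, zero_pow, mul_zero, zero_mul]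
          positivity
        · have e1 := card_cols H Q D h0
          have e2 := HR.err hτ0 hg₁ hw₁ hg₁u (cols D) k hD (by linarith)
          have e3 : 0 ≤ 2 * nu g₂ D * (yT p h Q D) ^ 2 := by positivity
          refine (mul_le_mul_of_nonneg_left e2 e3).trans ?_
          have e4 := yT_sq_le (p := p) (h := h) Q D
          have e5 : 0 ≤ 4 * τ * nu g₂ D * (rho g₁ 1 * om g₁ D) := by positivity
          have e6 := mul_le_mul_of_nonneg_left e4 e5
          have e7 : rho g₁ (cols D).card = om g₁ D := rfl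
          rw [e7]
          linarith
      have hB : (2 * nu g₂ D * (red g₂ (yT p h Q) k D) ^ 2) *
          EE g₁ (fun x₁ => (∏ l ∈ cols D, (R l x₁) ^ 2) * (R k x₁) ^ 3) ≤
          4 * rho g₁ 1 * (om g₁ D * (nu g₂ D * (red g₂ (yT p h Q) k D) ^ 2)) := by
        by_cases h0 : red g₂ (yT p h Q) k D = 0
        · rw [h0]
          simp
        · have e1 := red_card H Q k D h0
          have e2 := HR.up_new hτ1 hg₁ hg₁u (cols D) k hD (by linarith) 3 (by norm_num)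
          have e3 : 0 ≤ 2 * nu g₂ D * (red g₂ (yT p h Q) k D) ^ 2 := by positivity
          refine (mul_le_mul_of_nonneg_left e2 e3).trans (le_of_eq ?_)
          have e7 : rho g₁ (cols D).card = om g₁ D := rfl
          rw [e7]
          ring
      linarith
  refine (Finset.sum_le_sum fun D _ => h2 D).trans ?_
  rw [← Finset.mul_sum, Finset.sum_add_distrib, ← Finset.mul_sum]
  apply mul_le_mul_of_nonneg_left _ (by positivity)
  have h3 := H.red_yT Q δ hQ0 hδ k (om g₁) (om_nonneg hg₁ hg₁u)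
  unfold Zw
  linarith

end

end Pool.Agent.Y831.RC
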