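import Pool.Agent.Y831.RC5.Cov5

set_option autoImplicit false
set_option linter.unusedSectionVars false
set_option linter.unusedVariables false

/-! # The covering theorem in the full range: assembly -/

namespace Pool.Agent.Y831.RC

open Finset Filter Pool.Agent.H256R2.SC

open scoped Classical

theorem cov5_at (ε c C CR C₁ K₀ M₀ : ℝ) (hε : 0 < ε) (hε4 : ε ≤ 1 / 8) (hc : 0 < c) (hC : 0 < C)
    (hC₁ : 0 < C₁) (hCR0 : 0 ≤ CR)
    (hWb : ∀ y : ℝ, 2 ≤ y → c ≤ WW y * Real.log y ∧ WW y * Real.log y ≤ C)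
    (hSR : ∀ a b : ℝ, 2 ≤ a → a ≤ b →
    ∑ p ∈ (Finset.Ioc ⌊a⌋₊ ⌊b⌋₊).filter Nat.Prime, (1 : ℝ) / p ≤
      Real.log (Real.log b / Real.log a) + CR / Real.log a)
    (hBH : ∀ (w y : ℝ) (b₀ : ℕ) (m τ : ℝ) (κ : Type) [Fintype κ]
    [DecidableEq κ], 2 ≤ w → C₁ ≤ Real.log w → w ≤ y → Even b₀ →
    2 * (Fintype.card κ : ℝ) ≤ w → 0 ≤ m → τ ≤ 1 → m * (1 / 3) ^ b₀ ≤ Real.exp (-130) * τ →
    ∃ R : κ → Col (PS w y ∅).card κ → ℝ,
      BHyp (fun i => 1 / ((emb (PS w y ∅) i : ℕ) : ℝ)) R m τ ∧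
      ∀ k, Lw (Real.exp (Real.log y * (2 * b₀ + 4))) (R k))
    (hK1 : 1000 ≤ K₀) (hK2 : 100 / ε ^ 2 ≤ K₀) (hK3 : 300 / ε ≤ K₀) (hK4 : 64 / (c * ε) ≤ K₀)
    (hK5 : 72 * C ≤ K₀) (hM1 : 8 ≤ M₀) (hM2 : 200 / ε ≤ M₀) (hM3 : C ≤ M₀)
    (hM4 : Real.exp C₁ ≤ M₀) (hM5 : 2 * CR ≤ M₀)
    (L e : ℝ) (he1 : K₀ ≤ e) (he3 : K₀ * e ^ 3 ≤ Real.exp e) (helog : Real.log (K₀ * e) ≤ e / K₀)
    (a1 : M₀ ≤ L) (a2 : 1 ≤ Real.log L) (a3 : M₀ ≤ L ^ ε) (a4 : Real.log L * M₀ ≤ L)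
    (heu : e ≤ (1 - ε) * Real.log L)
    (b1 : M₀ * Real.log L ≤ L * Real.exp (-e) / e ^ 2)
    (κ : Type) [Fintype κ] [DecidableEq κ]
    (hκ : (Fintype.card κ : ℝ) ≤ (1 / 2 - 3 * ε) * (e * L * WW (L ^ (1 + ε))))
    (res : ℕ → κ → ℤ)
    (hres : ∀ p : ℕ, p.Prime → L ^ (1 + ε) < p →
      (p : ℝ) ≤ Real.exp (ε ^ 2 * L / (100 * e)) → ∀ k l, k ≠ l →
      ¬ ((p : ℤ) ∣ res p k - res p l))
    (A B : ℤ) (hAB : Real.exp ((1 - ε) * L) ≤ (B : ℝ) - A) :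
    3 / 8 * ((B : ℝ) - A) ≤ (((Ioc A B).filter (fun x : ℤ => ∀ k : κ, ∃ p : ℕ, p.Prime ∧
      L ^ (1 + ε) < p ∧ (p : ℝ) ≤ Real.exp (ε ^ 2 * L / (100 * e)) ∧
      (p : ℤ) ∣ x - res p k)).card : ℝ) * Real.exp (e ^ 2 * Real.exp e) := by
  have he1000 : 1000 ≤ e := by linarith only [hK1, he1]
  have he0 : 0 < e := by linarith only [he1000]
  have he1' : 1 ≤ e := by linarith only [he1000]
  have hε4' : ε ≤ 1 / 4 := by linarith only [hε4]
  set l : ℝ := Real.log L with hl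
  have hL2 : 2 ≤ L := by linarith only [hM1, a1]
  have hL0 : 0 < L := by linarith only [hL2]
  have hL1 : 1 ≤ L := by linarith only [hL2]
  have hl0 : 0 ≤ l := by linarith only [a2]
  have hel : e ≤ l := by
    have : 0 ≤ ε * l := mul_nonneg hε.le hl0
    linarith only [this, heu]
  have hM0 : 0 < M₀ := by linarith only [hM1]
  have hlL : l ≤ L := by
    have h1 : 8 * l ≤ M₀ * l := q_mul hM1 hl0
    linarith only [h1, a4, hl0]
  have hExpL : Real.exp e ≤ L := by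
    rw [← Real.exp_log hL0]
    exact Real.exp_le_exp.2 hel
  have he3' : e ^ 3 ≤ Real.exp e := q_cube hK1 he1' he3
  have he30 : 0 ≤ e ^ 3 := by positivity
  have h72 : 72 * C * e ^ 3 ≤ Real.exp e := (q_mul hK5 he30).trans he3
  have h12 : 12 * C * e ^ 3 ≤ Real.exp e := by
    have : 12 * C ≤ K₀ := by linarith only [hK5, hC]
    exact (q_mul this he30).trans he3
  set Y : ℝ := L * Real.exp (-e) / e ^ 2 with hY
  set Z : ℝ := ε ^ 2 * L / (100 * e) with hZ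
  obtain ⟨hYZ, hvZ, hZ0, hY0, _, _⟩ := p_YZ hε hε4' hL0 (hK2.trans he1) he3' hY hZ
  have hYM : M₀ ≤ Y := by
    have : M₀ * 1 ≤ M₀ * l := mul_le_mul_of_nonneg_left a2 hM0.le
    linarith only [this, b1]
  have hlog1 : Real.log e ≤ e / 20 := q_log1 hK1 he1' helog
  have hlog2 : Real.log (100 * e / ε ^ 2) ≤ ε / 4 * e := q_log2 hε hK1 he1' helog hK2 hK3
  have hCRY : CR / Y ≤ 1 / 2 := by
    rw [div_le_iff₀ hY0]
    linarith only [hM5, hYM]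
  have h64 : 64 / ε ≤ 200 / ε := div_le_div_of_nonneg_right (by norm_num) hε.le
  set m₀ : ℕ := ⌈20 * e⌉₊ with hm₀
  have hm₀1 : 20 * e ≤ m₀ := Nat.le_ceil _
  have hm₀2 : (m₀ : ℝ) < 20 * e + 1 := Nat.ceil_lt_add_one (by positivity)
  obtain ⟨hG₂, hprof⟩ := blk2_prof ε c C CR hε hε4' hc hWb hSR L e Y Z hL1 he1' hY0 hY hZ hYZ hvZ
    hlog1 hlog2 hCRY he1000 (hK4.trans he1) (hM1.trans hYM) (h64.trans (hM2.trans hYM)) m₀ hm₀1
  set w : ℝ := L ^ (1 + ε) with hw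
  have hwL : L ≤ w := by
    calc L = L ^ (1:ℝ) := (Real.rpow_one L).symm
      _ ≤ L ^ (1 + ε) := Real.rpow_le_rpow_of_exponent_le hL1 (by linarith only [hε])
  have hw2 : 2 ≤ w := by linarith only [hwL, hL2]
  have hlw : Real.log w = (1 + ε) * l := by rw [hw, Real.log_rpow hL0]
  have hwy : w ≤ Real.exp Y := q_wy hL0 (by linarith only [hε4]) hM1 a2 hw b1
  set y : ℝ := Real.exp Y with hy
  set z : ℝ := Real.exp Z with hz
  have hly : Real.log y = Y := Real.log_exp Y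
  have hlz : Real.log z = Z := Real.log_exp Z
  have hyY : Y + 1 ≤ y := Real.add_one_le_exp Y
  have hyz : y ≤ z := Real.exp_le_exp.2 hYZ
  have hy9 : 9 ≤ y := by linarith only [hyY, hYM, hM1]
  have hz1 : 1 < z := by linarith only [hy9, hyz]
  -- Mertens
  obtain ⟨hWw1, hWw2⟩ := hWb w hw2
  obtain ⟨hWy1, hWy2⟩ := hWb y (by linarith only [hy9])
  rw [hlw] at hWw1 hWw2
  rw [hly] at hWy1 hWy2
  have hV0 := WW_pos y
  have hW0 := WW_pos w
  have hW1 := WW_le_one w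
  set V : ℝ := WW y with hV
  set W : ℝ := WW w with hW
  set u : ℝ := (Fintype.card κ : ℝ) with hu
  have hu0 : 0 ≤ u := Nat.cast_nonneg _
  have hu2 : u ≤ L ^ 2 / 2 := p_u2 hL2 hlL he0.le hel hW0 hW1 hε u hκ
  obtain ⟨hlam0, hlam1, hlam2⟩ := p_lam hε hε4' hL1 he1' hV0 hW0 hWy2 hY u hu0 hκ
  have huw : 2 * u ≤ w := p_uw hL1 a2 he0.le hel hW0 hε hWw2 (hM3.trans a3) u hκ
  set v₀ : ℝ := L * Real.exp (-e) with hv₀
  have hv₀0 : 0 < v₀ := by positivity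
  -- the parameters
  set J : ℕ := 2 * ⌈15 * e⌉₊ with hJ
  have hJe : Even J := even_two_mul _
  have hJ1 : 30 * e ≤ J := by
    have := Nat.le_ceil (15 * e)
    rw [hJ]; push_cast; linarith only [this]
  have hJ2 : (J:ℝ) ≤ 30 * e + 2 := by
    have := (Nat.ceil_lt_add_one (show 0 ≤ 15 * e by positivity)).le
    rw [hJ]; push_cast; linarith only [this]
  have hm₀J : m₀ ≤ J := by
    have : (m₀:ℝ) ≤ J := by linarith only [hm₀2, hJ1, he1000]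
    exact_mod_cast this
  set b₀ : ℕ := 2 * ⌈2 * e⌉₊ with hb₀
  have hb₀e : Even b₀ := even_two_mul _
  have hb₀1 : 4 * e ≤ b₀ := by
    have := Nat.le_ceil (2 * e)
    rw [hb₀]; push_cast; linarith only [this]
  have hb₀2 : (b₀:ℝ) ≤ 4 * e + 2 := by
    have := (Nat.ceil_lt_add_one (show 0 ≤ 2 * e by positivity)).le
    rw [hb₀]; push_cast; linarith only [this]
  set Q : ℝ := Real.exp ((1 / 2 - ε) * L) with hQ
  have hlQ : Real.log Q = (1 / 2 - ε) * L := Real.log_exp _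
  have hhalf : 0 ≤ 1 / 2 - ε := by linarith only [hε4]
  have hlQ0 : 0 ≤ (1 / 2 - ε) * L := mul_nonneg hhalf hL0.le
  have hQ1 : 1 ≤ Q := Real.one_le_exp hlQ0
  set r : ℕ := ⌈Real.log Q / v₀⌉₊ with hr
  have hr1 : Real.log Q / v₀ ≤ r := Nat.le_ceil _
  have hrv : Real.log Q / v₀ ≤ Real.exp e / 2 := by
    rw [hlQ, hv₀]
    exact q_rv hε hL0
  have hexp1000 : 1001 ≤ Real.exp e := by
    have := Real.add_one_le_exp e
    linarith only [this, he1000]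
  have hr2 : (r:ℝ) ≤ Real.exp e / 2 + 1 := by
    have := (Nat.ceil_lt_add_one (show 0 ≤ Real.log Q / v₀ by
      apply div_nonneg _ hv₀0.le
      rw [hlQ]
      exact hlQ0)).le
    linarith only [this, hrv]
  have hrm : (r:ℝ) + 1 ≤ Real.exp e := by linarith only [hr2, hexp1000]
  have hre : (r:ℝ) ≤ Real.exp e := by linarith only [hrm]
  have hC1l : C₁ ≤ l := by
    rw [hl, Real.le_log_iff_exp_le hL0]
    exact hM4.trans a1
  have hεl : 0 ≤ ε * l := mul_nonneg hε.le hl0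
  -- the first block
  obtain ⟨R, hR1, hR2⟩ := hBH w y b₀ (Real.exp e) (Real.exp (-(2 * e))) κ hw2
    (by rw [hlw]; linarith only [hC1l, hεl]) hwy hb₀e huw (Real.exp_pos e).le
    (by rw [Real.exp_le_one_iff]; linarith only [he0]) (q_τ he1000 b₀ hb₀1)
  have hQz : Real.log (Q / z) = (1 / 2 - ε) * L - Z := by
    rw [Real.log_div (Real.exp_pos _).ne' (Real.exp_pos _).ne', hlQ, hlz]
  have hEE : Real.exp (ε * ((1 + ε) * u * (V / W * (1 / ((1 - ε) * V * e))) / Real.log z -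
      Real.log (Q / z) / Real.log z)) ≤ Real.exp (-(20 * e)) := by
    apply Real.exp_le_exp.2
    rw [hlz, hQz]
    have h1 := p_exp hε hε4' hL1 he1' hV0 hZ (u * (V / W)) hlam1
    have h2 : (1 + ε) * u * (V / W * (1 / ((1 - ε) * V * e))) =
        (1 + ε) * (u * (V / W) * (1 / ((1 - ε) * V * e))) := by ring
    rw [h2]
    exact h1
  have c1 : 2 * (Real.log Q / Real.log y) / y ≤ 1 / L ^ 4 := by
    rw [hlQ, hly]
    exact p_δ hε hε4' hL2 (by linarith only [hM1, hYM])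
      ((q_mul (by linarith only [hM1]) hl0).trans b1)
  have c2 : u ≤ y := by
    have e1 := p_pow (L := L) (Y := Y) hL1 2
      (le_trans (q_mul (by push_cast; linarith only [hM1]) hl0) b1)
    have e2 : 0 ≤ L ^ 2 := by positivity
    linarith only [e1, e2, hu2]
  have c3 : (Real.exp ((1 / 2 - ε) * L)) ^ (1 + ε / 16) *
      Real.exp (2 * u * ((Real.exp Y) ^ (1 - (1 + ε / 16)) * (11 / 10 * e))) ≤
      Real.exp ((1 / 2 - ε) * (1 + ε / 16) * L + 1) :=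
    p_CB hε hL2 a2 hlL he0.le hel u hu0 hu2
      ((q_mul ((div_le_div_of_nonneg_right (by norm_num) hε.le).trans hM2) hl0).trans b1)
  have c4 : 200 / ε * Real.log L ≤ L :=
    (q_mul hM2 hl0).trans (by rw [mul_comm]; exact a4)
  have c5 := p_AB hε hε4' hL2 a2 c4 (hK3.trans he1) (by linarith only [he1000]) hY hZ u hu0 hu2
    b₀ J r hb₀2 hJ2 hre _ hAB
  have hΛ : 1 ≤ Real.exp (Y * (2 * b₀ + 4)) := Real.one_le_exp (by positivity)
  have hR3 : ∀ k, Lw (Real.exp (Y * (2 * b₀ + 4))) (R k) := by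
    intro k
    have := hR2 k
    rw [hly] at this
    exact this
  have hmain := cover5 w y z (1 / ((1 - ε) * V * e)) Q (1 / L ^ 4) ε (1 + ε / 16)
    (Real.exp ((1 / 2 - ε) * (1 + ε / 16) * L + 1)) (11 / 10 * e) v₀ (Real.exp e)
    (Real.exp (-(2 * e))) (Real.exp (Y * (2 * b₀ + 4))) (Real.exp (24 * e)) J m₀ r hJe hm₀J
    hw2 hwy hyz hy9 hz1 hQ1 hε (by linarith only [hε4]) (by linarith only [hε]) hG₂ hprof
    c1 κ u rfl (Real.exp_pos _).le (by rw [Real.exp_le_one_iff]; linarith only [he0])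
    hΛ ⟨R, hR1, hR3⟩
    hr1 hrm (Real.one_le_exp (by positivity)) huw c2
    (p_uδ hL2 u hu2) hv₀0 c3
    (q_E8 he1' hEE)
    (p_tail he1' hC.le h72 (u * (V / W)) hlam0 hlam2 hExpL _ hEE)
    (p_mom he1' hC.le h12 (u * (V / W)) hlam0 hlam2 J hJ1)
    (p_pen he1' hC.le h12 (u * (V / W)) hlam0 hlam2)
    res hres A B c5
  refine hmain.trans ?_
  apply mul_le_mul_of_nonneg_left _ (Nat.cast_nonneg _)
  exact p_loss K₀ hK1 he1000 helog J r hJ2 hre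

theorem cov5 (ε : ℝ) (hε : 0 < ε) (hε8 : ε ≤ 1 / 8) : ∃ e₀ X₀ : ℝ, ∀ X : ℝ, X₀ ≤ X →
    ∀ e : ℝ, e₀ ≤ e → e ≤ (1 - ε) * Real.log (Real.log X) →
    ∀ (κ : Type) [Fintype κ] [DecidableEq κ],
    (Fintype.card κ : ℝ) ≤ (1 / 2 - 3 * ε) * (e * Real.log X * WW ((Real.log X) ^ (1 + ε))) →
    ∀ res : ℕ → κ → ℤ,
    (∀ p : ℕ, p.Prime → (Real.log X) ^ (1 + ε) < p →
      (p : ℝ) ≤ Real.exp (ε ^ 2 * Real.log X / (100 * e)) → ∀ k l, k ≠ l →
      ¬ ((p : ℤ) ∣ res p k - res p l)) →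
    ∀ A B : ℤ, Real.exp ((1 - ε) * Real.log X) ≤ (B : ℝ) - A →
    3 / 8 * ((B : ℝ) - A) ≤ (((Ioc A B).filter (fun x : ℤ => ∀ k : κ, ∃ p : ℕ, p.Prime ∧
      (Real.log X) ^ (1 + ε) < p ∧ (p : ℝ) ≤ Real.exp (ε ^ 2 * Real.log X / (100 * e)) ∧
      (p : ℤ) ∣ x - res p k)).card : ℝ) * Real.exp (e ^ 2 * Real.exp e) := by
  obtain ⟨c, C, hc, hcC, hWb⟩ := WW_bounds
  obtain ⟨CR, hCR0, hSR⟩ := sum_ratio
  obtain ⟨C₁, hC₁, hBH⟩ := BHyp_PS
  have hC : 0 < C := hc.trans_le hcC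
  have h0a : 0 < 100 / ε ^ 2 := by positivity
  have h0b : 0 < 300 / ε := by positivity
  have h0c : 0 < 64 / (c * ε) := by positivity
  have h0d : 0 < 200 / ε := by positivity
  have hE₁ := Real.exp_pos C₁
  obtain ⟨e₀, he₀⟩ := ev_e (1000 + 100 / ε ^ 2 + 300 / ε + 64 / (c * ε) + 72 * C)
    (by linarith only [h0a, h0b, h0c, hC])
  obtain ⟨L₀, hL₀⟩ := ev_L5 ε (8 + 200 / ε + C + Real.exp C₁ + 2 * CR) hε
    (by linarith only [hε8]) (by linarith only [h0d, hC, hE₁, hCR0])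
  refine ⟨max e₀ 1, Real.exp L₀, ?_⟩
  intro X hX e he heu κ _ _ hκ res hres A B hAB
  have hX0 : 0 < X := lt_of_lt_of_le (Real.exp_pos _) hX
  have hLL : L₀ ≤ Real.log X := by
    rw [Real.le_log_iff_exp_le hX0]
    exact hX
  obtain ⟨he1, he3, helog⟩ := he₀ e ((le_max_left _ _).trans he)
  obtain ⟨a1, a2, a3, a4, a5⟩ := hL₀ (Real.log X) hLL
  have b1 := a5 e ((le_max_right _ _).trans he) heu
  exact cov5_at ε c C CR C₁ (1000 + 100 / ε ^ 2 + 300 / ε + 64 / (c * ε) + 72 * C)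
    (8 + 200 / ε + C + Real.exp C₁ + 2 * CR) hε hε8 hc hC hC₁ hCR0 hWb hSR hBH
    (by linarith only [h0a, h0b, h0c, hC]) (by linarith only [h0a, h0b, h0c, hC])
    (by linarith only [h0a, h0b, h0c, hC]) (by linarith only [h0a, h0b, h0c, hC])
    (by linarith only [h0a, h0b, h0c, hC]) (by linarith only [h0d, hC, hE₁, hCR0])
    (by linarith only [h0d, hC, hE₁, hCR0]) (by linarith only [h0d, hC, hE₁, hCR0])
    (by linarith only [h0d, hC, hE₁, hCR0]) (by linarith only [h0d, hC, hE₁, hCR0])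
    (Real.log X) e he1 he3 helog a1 a2 a3 a4 heu b1 κ hκ res hres A B hAB

end Pool.Agent.Y831.RC
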