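import Pool.Agent.Y831.RC5.Core5

set_option autoImplicit false
set_option linter.unusedSectionVars false

/-! # The weighted second moment with the majorants of single colours -/

namespace Pool.Agent.Y831.RC

open Finset Pool.Agent.H256R2.SC

variable {n n₁ n₂ : ℕ} {κ : Type} [Fintype κ] [DecidableEq κ]

open TaskF in
theorem weighted_rho' {g : Fin n → ℝ} {h : Finset (Fin n) → ℝ} (hg : ∀ i, 0 ≤ g i)
    (hh0 : ∀ s, 0 ≤ h s) (hh1 : ∀ s, h s ≤ 1)
    (ω : Col n κ → ℝ) (hω : ∀ D, 0 ≤ ω D) (k₀ : κ)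
    (t : ℝ) (ht : 0 ≤ t) :
    ∑ D : Col n κ, ω (er k₀ D) * ((∏ i, bet (g i) t k₀ (D i)) * (yy h D) ^ 2) ≤
      Real.exp ((2 + 6 * t) * ∑ i, g i) * Zw ω g h := by
  have g0 := hg
  set P : ℝ := ∏ i, (1 + 3 * t * g i) with hP
  have hP0 : 0 ≤ P := prod_nonneg fun i _ => by have := g0 i; positivity
  let W : Finset (Fin n) → ℝ := fun s => ∏ i ∈ s, ((1 + 3 * t) * g i)
  have hW0 : ∀ s, 0 ≤ W s := fun s => prod_nonneg fun i _ => by have := g0 i; positivity
  let F : Col n κ → ℝ := fun D => ω D * ((yy h D) ^ 2 * nu g D)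
  have hnu0 : ∀ D : Col n κ, 0 ≤ nu g D := E_nu_nonneg hg
  have hF0 : ∀ D, 0 ≤ F D := fun D => mul_nonneg (hω D) (mul_nonneg (sq_nonneg _) (hnu0 D))
  have hterm : ∀ D : Col n κ, ω (er k₀ D) * ((∏ i, bet (g i) t k₀ (D i)) * (yy h D) ^ 2) ≤
      P * (F (er k₀ D) * W (fib D k₀)) := by
    intro D
    have hb : ∏ i, bet (g i) t k₀ (D i) ≤ P * (nu g (er k₀ D) * W (fib D k₀)) := by
      have hWW : W (fib D k₀) = ∏ i, (if D i = some k₀ then (1 + 3 * t) * g i else 1) := by
        simp only [W, fib]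
        rw [prod_filter]
      rw [hWW, hP]
      unfold nu
      rw [← prod_mul_distrib, ← prod_mul_distrib]
      apply prod_le_prod
      · intro i _
        have := g0 i
        unfold bet
        split
        · positivity
        · split <;> positivity
      · intro i _
        have hg := g0 i
        have h3 : 0 ≤ 3 * t * g i := by positivity
        cases hD : D i with
        | none => simp [bet, er, hD, nu1]
        | some l =>
          by_cases hl : l = k₀
          · subst hl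
            simp only [bet, if_true, er, hD, nu1]
            have h4 : 0 ≤ (1 + 3 * t) * g i := by positivity
            nlinarith
          · have hl' : ¬ (some l = some k₀) := fun e => hl (Option.some.inj e)
            simp only [bet, if_neg hl, er, hD, if_neg hl', nu1]
            nlinarith
    have hbn : 0 ≤ P * (nu g (er k₀ D) * W (fib D k₀)) :=
      mul_nonneg hP0 (mul_nonneg (hnu0 _) (hW0 _))
    have hb2 : (∏ i, bet (g i) t k₀ (D i)) * (yy h D) ^ 2 ≤
        (P * (nu g (er k₀ D) * W (fib D k₀))) * (yy h (er k₀ D)) ^ 2 :=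
      mul_le_mul hb (yy_sq_le hh0 hh1 k₀ D) (sq_nonneg _) hbn
    calc ω (er k₀ D) * ((∏ i, bet (g i) t k₀ (D i)) * (yy h D) ^ 2)
        ≤ ω (er k₀ D) * ((P * (nu g (er k₀ D) * W (fib D k₀))) * (yy h (er k₀ D)) ^ 2) :=
          mul_le_mul_of_nonneg_left hb2 (hω _)
      _ = P * (F (er k₀ D) * W (fib D k₀)) := by simp only [F]; ring
  have hsum : ∑ D : Col n κ, F (er k₀ D) * W (fib D k₀) ≤ (∑ D : Col n κ, F D) * ∑ s, W s := by
    rw [sum_mul_sum, ← sum_product']
    have e : ∑ D : Col n κ, F (er k₀ D) * W (fib D k₀) =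
        ∑ x ∈ univ.image (fun D : Col n κ => (er k₀ D, fib D k₀)), F x.1 * W x.2 := by
      rw [sum_image]
      intro a _ b _ hab
      exact inj k₀ hab
    rw [e]
    apply sum_le_sum_of_subset_of_nonneg
    · intro x _
      simp
    · intro x _ _
      exact mul_nonneg (hF0 _) (hW0 _)
  have hWs : ∑ s, W s = ∏ i, (1 + (1 + 3 * t) * g i) := by
    rw [prod_one_add]
    simp [W]
  have e1 : P ≤ Real.exp (3 * t * ∑ i, g i) := by
    rw [mul_sum, Real.exp_sum]
    apply prod_le_prod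
    · intro i _
      have := g0 i
      positivity
    · intro i _
      have := Real.add_one_le_exp (3 * t * g i)
      linarith
  have e2 : ∏ i, (1 + (1 + 3 * t) * g i) ≤ Real.exp ((1 + 3 * t) * ∑ i, g i) := by
    rw [mul_sum, Real.exp_sum]
    apply prod_le_prod
    · intro i _
      have := g0 i
      positivity
    · intro i _
      have := Real.add_one_le_exp ((1 + 3 * t) * g i)
      linarith
  have hZ0 : 0 ≤ Zw ω g h := sum_nonneg fun D _ => hF0 D
  have hG0 : 0 ≤ ∑ i, g i := sum_nonneg fun i _ => g0 i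
  calc ∑ D : Col n κ, ω (er k₀ D) * ((∏ i, bet (g i) t k₀ (D i)) * (yy h D) ^ 2)
      ≤ ∑ D : Col n κ, P * (F (er k₀ D) * W (fib D k₀)) := sum_le_sum fun D _ => hterm D
    _ = P * ∑ D : Col n κ, F (er k₀ D) * W (fib D k₀) := by rw [mul_sum]
    _ ≤ P * (Zw ω g h * ∏ i, (1 + (1 + 3 * t) * g i)) := by
        rw [← hWs]
        exact mul_le_mul_of_nonneg_left hsum hP0
    _ ≤ Real.exp (3 * t * ∑ i, g i) * (Zw ω g h * Real.exp ((1 + 3 * t) * ∑ i, g i)) := by
        apply mul_le_mul e1 _ _ (Real.exp_pos _).le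
        · exact mul_le_mul_of_nonneg_left e2 hZ0
        · apply mul_nonneg hZ0
          refine prod_nonneg fun i _ => ?_
          have := g0 i
          positivity
    _ = Real.exp ((1 + 6 * t) * ∑ i, g i) * Zw ω g h := by
        have : Real.exp ((1 + 6 * t) * ∑ i, g i) =
            Real.exp (3 * t * ∑ i, g i) * Real.exp ((1 + 3 * t) * ∑ i, g i) := by
          rw [← Real.exp_add]
          ring_nf
        rw [this]
        ring
    _ ≤ Real.exp ((2 + 6 * t) * ∑ i, g i) * Zw ω g h := by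
        apply mul_le_mul_of_nonneg_right _ hZ0
        apply Real.exp_le_exp.mpr
        nlinarith

section
variable {p g₂ : Fin n₂ → ℝ} {h : Finset (Fin n₂) → ℝ} {z K v₀ : ℝ} {g₁ : Fin n₁ → ℝ}
  {R : κ → Col n₁ κ → ℝ} {m τ : ℝ}

theorem moment5 (H : HypS p g₂ h z K v₀) (HR : BHyp g₁ R m τ) (hτ1 : τ ≤ 1)
    (hg₁ : ∀ i, 0 ≤ g₁ i)
    (hg₁u : ∀ i, (Fintype.card κ : ℝ) * g₁ i ≤ 1 / 2) (hρ1 : 0 ≤ rho g₁ 1) (Q : ℝ)
    (hug : ∀ i, (Fintype.card κ : ℝ) * g₂ i ≤ 1) (htg : ∀ i, 3 * 3 * g₂ i ≤ 1)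
    (hm : Real.log Q / v₀ + 1 ≤ m) (k : κ) :
    EE g₁ (fun x₁ : Col n₁ κ => EE g₂ (fun x₂ : Col n₂ κ =>
      R k x₁ * ((∏ i, if x₂ i = some k then (1:ℝ) + 3 else 1) *
        (V5 g₂ (yT p h Q) R x₁ x₂) ^ 2))) ≤
      2 * rho g₁ 1 * Real.exp (20 * ∑ i, g₂ i) * Zw (om g₁ : Col n₂ κ → ℝ) g₂ h := by
  have hw : ∀ i (c : Option κ), 0 ≤ wt (g₂ i) c := fun i c => wt_nonneg (H.g0 i).le (hug i) c
  have hw₁ : ∀ i (c : Option κ), 0 ≤ wt (g₁ i) c := fun i c =>
    wt_nonneg (hg₁ i) (by linarith [hg₁u i]) c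
  have hbet : ∀ i (c : Option κ), 0 ≤ bet (g₂ i) 3 k c := by
    intro i c
    have := (H.g0 i).le
    cases c with
    | none =>
      simp only [bet]
      positivity
    | some l =>
      simp only [bet]
      split_ifs
      · positivity
      · exact this
  have h1 : EE g₁ (fun x₁ : Col n₁ κ => EE g₂ (fun x₂ : Col n₂ κ =>
      R k x₁ * ((∏ i, if x₂ i = some k then (1:ℝ) + 3 else 1) *
        (V5 g₂ (yT p h Q) R x₁ x₂) ^ 2))) ≤
      EE g₁ (fun x₁ : Col n₁ κ => ∑ D : Col n₂ κ,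
        ((∏ i, bet (g₂ i) 3 k (D i)) * (yT p h Q D) ^ 2) *
          (R k x₁ * ∏ l ∈ cols D, (R l x₁) ^ 2)) := by
    apply EE_mono hw₁
    intro x₁
    rw [EE_smul]
    have h2 := tensor_upper (κ := κ) g₂ (fun _ c => if c = some k then (1:ℝ) + 3 else 1)
      (fun i c => bet (g₂ i) 3 k c) hw
      (by intro i c; split_ifs <;> norm_num) hbet
      (fun i Y => local_wt (g₂ i) 3 (H.g0 i).le (by norm_num) (htg i) k Y)
      (fun D => yT p h Q D * ∏ l ∈ cols D, R l x₁)
    refine (mul_le_mul_of_nonneg_left h2 (HR.nn k x₁)).trans (le_of_eq ?_)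
    rw [Finset.mul_sum]
    refine Finset.sum_congr rfl fun D _ => ?_
    rw [Finset.prod_pow]
    ring
  refine h1.trans ?_
  rw [EE_sum]
  have h2 : ∀ D : Col n₂ κ, EE g₁ (fun x₁ : Col n₁ κ =>
        ((∏ i, bet (g₂ i) 3 k (D i)) * (yT p h Q D) ^ 2) *
          (R k x₁ * ∏ l ∈ cols D, (R l x₁) ^ 2)) ≤
      2 * rho g₁ 1 * (om g₁ (er k D) * ((∏ i, bet (g₂ i) 3 k (D i)) * (yy h D) ^ 2)) := by
    intro D
    have hom := om_nonneg (κ := κ) hg₁ hg₁u (er k D)
    have hbp : 0 ≤ ∏ i, bet (g₂ i) 3 k (D i) := Finset.prod_nonneg fun i _ => hbet i _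
    rw [EE_smul]
    by_cases hD : yT p h Q D = 0
    · rw [hD]
      have : 0 ≤ om g₁ (er k D) * ((∏ i, bet (g₂ i) 3 k (D i)) * (yy h D) ^ 2) :=
        mul_nonneg hom (mul_nonneg hbp (sq_nonneg _))
      simp only [ne_eq, OfNat.ofNat_ne_zero, not_false_eq_true, zero_pow, mul_zero, zero_mul]
      positivity
    · have h3 := card_cols H Q D hD
      have h4 : EE g₁ (fun x₁ : Col n₁ κ => R k x₁ * ∏ l ∈ cols D, (R l x₁) ^ 2) ≤
          2 * (rho g₁ 1 * om g₁ (er k D)) := by
        have ecard : om g₁ (er k D) = rho g₁ ((cols D).erase k).card := by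
          unfold om
          rw [cols_er]
        rw [ecard]
        have hle : (((cols D).erase k).card : ℝ) + 1 ≤ m := by
          have e1 : (((cols D).erase k).card : ℝ) ≤ (cols D).card := by
            exact_mod_cast Finset.card_le_card (Finset.erase_subset k (cols D))
          linarith
        by_cases hk : k ∈ cols D
        · have e1 := HR.up_new hτ1 hg₁ hg₁u ((cols D).erase k) k (Finset.notMem_erase k _) hle 3
            (by norm_num)
          refine le_trans (le_of_eq ?_) e1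
          congr 1
          funext x₁
          rw [← Finset.mul_prod_erase (cols D) (fun l => (R l x₁) ^ 2) hk]
          ring
        · have e0 : (cols D).erase k = cols D := Finset.erase_eq_of_notMem hk
          have e1 := HR.up_new hτ1 hg₁ hg₁u ((cols D).erase k) k (Finset.notMem_erase k _) hle 1
            (by norm_num)
          refine le_trans (le_of_eq ?_) e1
          congr 1
          funext x₁
          rw [e0]
          ring
      have h5 := yT_sq_le (p := p) (h := h) Q D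
      have h6 : 0 ≤ (∏ i, bet (g₂ i) 3 k (D i)) * (yT p h Q D) ^ 2 :=
        mul_nonneg hbp (sq_nonneg _)
      have h7 : (∏ i, bet (g₂ i) 3 k (D i)) * (yT p h Q D) ^ 2 ≤
          (∏ i, bet (g₂ i) 3 k (D i)) * (yy h D) ^ 2 := mul_le_mul_of_nonneg_left h5 hbp
      have h8 : 0 ≤ 2 * (rho g₁ 1 * om g₁ (er k D)) := by positivity
      refine (mul_le_mul_of_nonneg_left h4 h6).trans ?_
      refine (mul_le_mul_of_nonneg_right h7 h8).trans (le_of_eq ?_)
      ring
  refine (Finset.sum_le_sum fun D _ => h2 D).trans ?_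
  rw [← Finset.mul_sum]
  have h3 := weighted_rho' (κ := κ) (g := g₂) (h := h) (fun i => (H.g0 i).le) H.h0 H.h1 (om g₁)
    (om_nonneg hg₁ hg₁u) k 3 (by norm_num)
  have h4 : (0:ℝ) ≤ 2 * rho g₁ 1 := by positivity
  refine (mul_le_mul_of_nonneg_left h3 h4).trans (le_of_eq ?_)
  norm_num
  ring

end

end Pool.Agent.Y831.RC
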