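import Pool.Agent.Y831.RC5.Mom5

set_option autoImplicit false
set_option linter.unusedSectionVars false

/-! # A pointwise bound for the sieve weight with the majorants of single colours -/

namespace Pool.Agent.Y831.RC

open Finset Pool.Agent.H256R2.SC

variable {n n₁ n₂ : ℕ} {κ : Type} [Fintype κ] [DecidableEq κ]

/-- products over the assignments with few colours -/
theorem sum_fib_le (c : κ → Finset (Fin n) → ℝ) (hc : ∀ k s, 0 ≤ c k s) (hc1 : ∀ k, c k ∅ = 1)
    (r : ℕ) (S : ℝ) (hS : ∑ k, ∑ s : Finset (Fin n) with s.Nonempty, c k s ≤ S) :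
    ∑ D : Col n κ with (cols D).card ≤ r, ∏ k, c k (fib D k) ≤ 3 * (1 + S) ^ r := by
  classical
  have hS0 : 0 ≤ S := le_trans (Finset.sum_nonneg fun k _ => Finset.sum_nonneg fun s _ => hc k s) hS
  set t : ℝ := 1 / (1 + S) with ht
  have ht0 : 0 < t := by positivity
  have ht1 : t ≤ 1 := by rw [ht, div_le_one (by positivity)]; linarith
  have htC : t * (1 + S) = 1 := by rw [ht]; field_simp
  set c' : κ → Finset (Fin n) → ℝ := fun k s => if s.Nonempty then t * c k s else 1 with hc'
  have hc'0 : ∀ k s, 0 ≤ c' k s := by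
    intro k s
    simp only [hc']
    split_ifs
    · exact mul_nonneg ht0.le (hc k s)
    · norm_num
  have h1 : ∀ D : Col n κ, ∏ k, c' k (fib D k) = t ^ (cols D).card * ∏ k, c k (fib D k) := by
    intro D
    have e1 : t ^ (cols D).card = ∏ k : κ, (if k ∈ cols D then t else 1) := by
      rw [Finset.prod_ite, Finset.prod_const_one, mul_one, Finset.prod_const]
      congr 2
      ext k
      simp
    rw [e1, ← Finset.prod_mul_distrib]
    refine Finset.prod_congr rfl fun k _ => ?_
    simp only [hc']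
    by_cases hk : (fib D k).Nonempty
    · rw [if_pos hk, if_pos (mem_cols.2 hk)]
    · rw [if_neg hk, if_neg (fun h => hk (mem_cols.1 h)), Finset.not_nonempty_iff_eq_empty.1 hk,
        hc1]
      norm_num
  have h2 : ∀ D : Col n κ, (cols D).card ≤ r →
      ∏ k, c k (fib D k) ≤ (1 + S) ^ r * ∏ k, c' k (fib D k) := by
    intro D hD
    rw [h1, ← mul_assoc]
    have e3 : 1 ≤ (1 + S) ^ r * t ^ (cols D).card := by
      have e4 : t ^ r ≤ t ^ (cols D).card := pow_le_pow_of_le_one ht0.le ht1 hD
      calc (1:ℝ) = (1 + S) ^ r * t ^ r := by rw [← mul_pow, mul_comm, htC, one_pow]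
        _ ≤ _ := mul_le_mul_of_nonneg_left e4 (by positivity)
    have e5 : 0 ≤ ∏ k, c k (fib D k) := Finset.prod_nonneg fun k _ => hc k _
    have := mul_le_mul_of_nonneg_right e3 e5
    linarith
  have hinj : Function.Injective (fun D : Col n κ => fun k => fib D k) := by
    intro D D' hDD
    funext i
    have e1 : ∀ k, D i = some k ↔ D' i = some k := by
      intro k
      have e2 := congrFun hDD k
      simp only at e2
      rw [← mem_fib, ← mem_fib, e2]
    cases hD : D i with
    | none =>
      cases hD' : D' i with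
      | none => rfl
      | some k =>
        have := (e1 k).2 hD'
        rw [hD] at this
        exact absurd this (by simp)
    | some k => exact ((e1 k).1 hD).symm
  have h3 : ∑ D : Col n κ, ∏ k, c' k (fib D k) ≤ ∏ k, ∑ s, c' k s := by
    have e1 := Finset.prod_univ_sum (fun _ : κ => (univ : Finset (Finset (Fin n))))
      (fun (k : κ) (s : Finset (Fin n)) => c' k s)
    rw [Fintype.piFinset_univ] at e1
    rw [e1]
    have e2 : ∑ D : Col n κ, ∏ k, c' k (fib D k) =
        ∑ f ∈ (univ : Finset (Col n κ)).image (fun D : Col n κ => fun k => fib D k),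
          ∏ k, c' k (f k) := by
      rw [Finset.sum_image]
      intro D _ D' _ h
      exact hinj h
    rw [e2]
    apply Finset.sum_le_sum_of_subset_of_nonneg (Finset.subset_univ _)
    intro f _ _
    exact Finset.prod_nonneg fun k _ => hc'0 k _
  have h4 : ∀ k, ∑ s, c' k s = 1 + t * ∑ s : Finset (Fin n) with s.Nonempty, c k s := by
    intro k
    have e1 : ∀ s, c' k s = (if s = ∅ then 1 else 0) + (if s.Nonempty then t * c k s else 0) := by
      intro s
      simp only [hc']
      by_cases hs : s.Nonempty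
      · rw [if_pos hs, if_pos hs, if_neg hs.ne_empty, zero_add]
      · rw [if_neg hs, if_neg hs, if_pos (Finset.not_nonempty_iff_eq_empty.1 hs), add_zero]
    rw [Finset.sum_congr rfl fun s _ => e1 s, Finset.sum_add_distrib, Finset.sum_ite_eq',
      if_pos (Finset.mem_univ _), ← Finset.sum_filter, ← Finset.mul_sum]
  calc ∑ D : Col n κ with (cols D).card ≤ r, ∏ k, c k (fib D k)
      ≤ ∑ D : Col n κ with (cols D).card ≤ r, (1 + S) ^ r * ∏ k, c' k (fib D k) :=
        Finset.sum_le_sum fun D hD => h2 D (Finset.mem_filter.1 hD).2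
    _ ≤ ∑ D : Col n κ, (1 + S) ^ r * ∏ k, c' k (fib D k) := by
        apply Finset.sum_le_sum_of_subset_of_nonneg (Finset.subset_univ _)
        intro D _ _
        exact mul_nonneg (by positivity) (Finset.prod_nonneg fun k _ => hc'0 k _)
    _ = (1 + S) ^ r * ∑ D : Col n κ, ∏ k, c' k (fib D k) := by rw [Finset.mul_sum]
    _ ≤ (1 + S) ^ r * ∏ k, ∑ s, c' k s := mul_le_mul_of_nonneg_left h3 (by positivity)
    _ ≤ (1 + S) ^ r * 3 := by
        apply mul_le_mul_of_nonneg_left _ (by positivity)
        calc ∏ k, ∑ s, c' k s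
            ≤ ∏ k, Real.exp (t * ∑ s : Finset (Fin n) with s.Nonempty, c k s) := by
              apply Finset.prod_le_prod
              · intro k _
                exact Finset.sum_nonneg fun s _ => hc'0 k s
              · intro k _
                rw [h4]
                have := Real.add_one_le_exp (t * ∑ s : Finset (Fin n) with s.Nonempty, c k s)
                linarith
          _ = Real.exp (t * ∑ k, ∑ s : Finset (Fin n) with s.Nonempty, c k s) := by
              rw [← Real.exp_sum, ← Finset.mul_sum]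
          _ ≤ Real.exp 1 := by
              apply Real.exp_le_exp.2
              rw [← htC]
              apply mul_le_mul_of_nonneg_left _ ht0.le
              linarith
          _ ≤ 3 := by
              have := Real.exp_one_lt_d9
              linarith
    _ = _ := by ring

/-- small sets against few hits -/
theorem sum_small_le (g : Fin n → ℝ) (hg : ∀ i, 0 ≤ g i) (T : Finset (Fin n)) (m₀ : ℕ) :
    ∑ s : Finset (Fin n) with s.card ≤ m₀, ∏ i ∈ s, ((if i ∈ T then 1 else 0) + g i) ≤
      3 * Real.exp (∑ i, g i) * (1 + (T.card : ℝ)) ^ m₀ := by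
  classical
  set b : Fin n → ℝ := fun i => (if i ∈ T then 1 else 0) + g i with hb
  have hb0 : ∀ i, 0 ≤ b i := by
    intro i
    simp only [hb]
    have := hg i
    split_ifs <;> linarith
  set y : ℝ := 1 / (1 + (T.card : ℝ)) with hy
  have hT0 : (0:ℝ) ≤ T.card := Nat.cast_nonneg _
  have hy0 : 0 < y := by positivity
  have hy1 : y ≤ 1 := by rw [hy, div_le_one (by positivity)]; linarith
  have hyT : y * (1 + (T.card : ℝ)) = 1 := by rw [hy]; field_simp
  have h1 : ∀ s : Finset (Fin n), s.card ≤ m₀ →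
      ∏ i ∈ s, b i ≤ (1 + (T.card : ℝ)) ^ m₀ * ∏ i ∈ s, (y * b i) := by
    intro s hs
    rw [Finset.prod_mul_distrib, Finset.prod_const, ← mul_assoc]
    have e3 : 1 ≤ (1 + (T.card : ℝ)) ^ m₀ * y ^ s.card := by
      have e4 : y ^ m₀ ≤ y ^ s.card := pow_le_pow_of_le_one hy0.le hy1 hs
      calc (1:ℝ) = (1 + (T.card : ℝ)) ^ m₀ * y ^ m₀ := by rw [← mul_pow, mul_comm, hyT, one_pow]
        _ ≤ _ := mul_le_mul_of_nonneg_left e4 (by positivity)
    have e5 : 0 ≤ ∏ i ∈ s, b i := Finset.prod_nonneg fun i _ => hb0 i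
    have := mul_le_mul_of_nonneg_right e3 e5
    linarith
  have hsum : ∑ i, b i = T.card + ∑ i, g i := by
    simp only [hb]
    rw [Finset.sum_add_distrib]
    congr 1
    simp
  have hG : 0 ≤ ∑ i, g i := Finset.sum_nonneg fun i _ => hg i
  calc ∑ s : Finset (Fin n) with s.card ≤ m₀, ∏ i ∈ s, b i
      ≤ ∑ s : Finset (Fin n) with s.card ≤ m₀, (1 + (T.card : ℝ)) ^ m₀ * ∏ i ∈ s, (y * b i) :=
        Finset.sum_le_sum fun s hs => h1 s (Finset.mem_filter.1 hs).2
    _ ≤ ∑ s : Finset (Fin n), (1 + (T.card : ℝ)) ^ m₀ * ∏ i ∈ s, (y * b i) := by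
        apply Finset.sum_le_sum_of_subset_of_nonneg (Finset.subset_univ _)
        intro s _ _
        exact mul_nonneg (by positivity) (Finset.prod_nonneg fun i _ => mul_nonneg hy0.le (hb0 i))
    _ = (1 + (T.card : ℝ)) ^ m₀ * ∏ i, (1 + y * b i) := by
        rw [← Finset.mul_sum, Finset.prod_one_add]
        simp
    _ ≤ (1 + (T.card : ℝ)) ^ m₀ * (3 * Real.exp (∑ i, g i)) := by
        apply mul_le_mul_of_nonneg_left _ (by positivity)
        calc ∏ i, (1 + y * b i) ≤ ∏ i, Real.exp (y * b i) := by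
              apply Finset.prod_le_prod
              · intro i _
                have := hb0 i
                positivity
              · intro i _
                have := Real.add_one_le_exp (y * b i)
                linarith
          _ = Real.exp (y * T.card + y * ∑ i, g i) := by
              rw [← Real.exp_sum, ← Finset.mul_sum, hsum, mul_add]
          _ ≤ Real.exp (1 + ∑ i, g i) := by
              apply Real.exp_le_exp.2
              have e1 : y * T.card ≤ 1 := by rw [← hyT]; nlinarith
              have e2 : y * ∑ i, g i ≤ ∑ i, g i := by nlinarith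
              linarith
          _ = Real.exp 1 * Real.exp (∑ i, g i) := Real.exp_add _ _
          _ ≤ 3 * Real.exp (∑ i, g i) := by
              have := Real.exp_one_lt_d9
              have h0 := Real.exp_pos (∑ i, g i)
              nlinarith
    _ = _ := by ring

theorem hits_pow_le (J : ℕ) (hJ : Even J) (k : κ) (x : Col n κ) :
    (1 + ((hits k x).card : ℝ)) ^ J ≤ ((J : ℝ) + 2) ^ (2 * J) * (1 + SS J k x) := by
  have hSS0 : 0 ≤ SS J k x := by
    refine le_trans ?_ (SS_lower J hJ k x)
    split_ifs <;> norm_num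
  have hJ0 : (0:ℝ) ≤ J := Nat.cast_nonneg _
  by_cases h : (hits k x).card ≤ J
  · have h1 : (1 + ((hits k x).card : ℝ)) ^ J ≤ ((J : ℝ) + 2) ^ J := by
      apply pow_le_pow_left₀ (by positivity)
      have : ((hits k x).card : ℝ) ≤ J := by exact_mod_cast h
      linarith
    have h2 : ((J : ℝ) + 2) ^ J ≤ ((J : ℝ) + 2) ^ (2 * J) :=
      pow_le_pow_right₀ (by linarith) (by omega)
    have h3 : 0 ≤ ((J : ℝ) + 2) ^ (2 * J) := by positivity
    nlinarith
  · push Not at h
    obtain ⟨R, hR⟩ : ∃ R, (hits k x).card = R + 1 := ⟨(hits k x).card - 1, by omega⟩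
    rw [SS_pos J hJ k x R hR, hR]
    have hRJ : J ≤ R := by omega
    have h1 : (((R + 1 - J : ℕ) ^ J : ℕ) : ℝ) ≤ ((J.factorial * R.choose J : ℕ) : ℝ) := by
      have := Nat.pow_sub_le_descFactorial R J
      rw [Nat.descFactorial_eq_factorial_mul_choose] at this
      exact_mod_cast this
    have h2 : (J.factorial : ℝ) ≤ ((J : ℝ) + 2) ^ J := by
      have e1 : ((J.factorial : ℕ) : ℝ) ≤ ((J ^ J : ℕ) : ℝ) := by
        exact_mod_cast Nat.factorial_le_pow J
      refine e1.trans ?_
      push_cast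
      exact pow_le_pow_left₀ hJ0 (by linarith) _
    have h3 : (1 + ((R + 1 : ℕ) : ℝ)) ≤ ((J : ℝ) + 2) * ((R + 1 - J : ℕ) : ℝ) := by
      have e1 : ((R + 1 - J : ℕ) : ℝ) = (R : ℝ) + 1 - J := by
        rw [Nat.cast_sub (by omega)]
        push_cast
        ring
      rw [e1]
      push_cast
      have e2 : (J : ℝ) ≤ R := by exact_mod_cast hRJ
      nlinarith
    have h4 : (0:ℝ) ≤ R.choose J := Nat.cast_nonneg _
    calc (1 + ((R + 1 : ℕ) : ℝ)) ^ J ≤ (((J : ℝ) + 2) * ((R + 1 - J : ℕ) : ℝ)) ^ J :=
          pow_le_pow_left₀ (by positivity) h3 _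
      _ = ((J : ℝ) + 2) ^ J * (((R + 1 - J : ℕ) ^ J : ℕ) : ℝ) := by
          rw [mul_pow]
          push_cast
          ring
      _ ≤ ((J : ℝ) + 2) ^ J * ((J.factorial * R.choose J : ℕ) : ℝ) :=
          mul_le_mul_of_nonneg_left h1 (by positivity)
      _ = ((J : ℝ) + 2) ^ J * (J.factorial : ℝ) * (R.choose J : ℝ) := by
          push_cast
          ring
      _ ≤ ((J : ℝ) + 2) ^ J * ((J : ℝ) + 2) ^ J * (R.choose J : ℝ) := by
          apply mul_le_mul_of_nonneg_right _ h4
          exact mul_le_mul_of_nonneg_left h2 (by positivity)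
      _ = ((J : ℝ) + 2) ^ (2 * J) * (R.choose J : ℝ) := by
          rw [two_mul, pow_add]
      _ ≤ ((J : ℝ) + 2) ^ (2 * J) * (1 + (R.choose J : ℝ)) :=
          mul_le_mul_of_nonneg_left (by linarith) (by positivity)

/-- the pointwise bound -/
theorem V5_le (g₂ : Fin n₂ → ℝ) (hg0 : ∀ i, 0 ≤ g₂ i) (y : Col n₂ κ → ℝ) (hy : ∀ D, |y D| ≤ 1)
    (R : κ → Col n₁ κ → ℝ) (J m₀ r : ℕ) (hJ : Even J) (hm₀ : m₀ ≤ J)
    (hsupp : ∀ D, y D ≠ 0 → (cols D).card ≤ r ∧ ∀ k, (fib D k).card ≤ m₀)
    (x₁ : Col n₁ κ) (x₂ : Col n₂ κ) (hR : ∀ k, 0 ≤ R k x₁) (R₂ : ℝ)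
    (H1 : ∑ k, R k x₁ ≤ R₂) (H2 : ∑ k, R k x₁ * SS J k x₂ ≤ 1) :
    |V5 g₂ y R x₁ x₂| ≤
      3 * (1 + 3 * Real.exp (∑ i, g₂ i) * ((J : ℝ) + 2) ^ (2 * J) * (R₂ + 1)) ^ r := by
  classical
  set B₀ : ℝ := 3 * Real.exp (∑ i, g₂ i) * ((J : ℝ) + 2) ^ (2 * J) with hB₀
  have hB00 : 0 ≤ B₀ := by positivity
  set c : κ → Finset (Fin n₂) → ℝ := fun k s =>
    if s.Nonempty then (if s.card ≤ m₀ then
      R k x₁ * ∏ i ∈ s, ((if i ∈ hits k x₂ then 1 else 0) + g₂ i) else 0) else 1 with hc
  have hb0 : ∀ (k : κ) (i : Fin n₂), 0 ≤ (if i ∈ hits k x₂ then (1:ℝ) else 0) + g₂ i := by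
    intro k i
    have := hg0 i
    split_ifs <;> linarith
  have hc0 : ∀ k s, 0 ≤ c k s := by
    intro k s
    simp only [hc]
    split_ifs
    · exact mul_nonneg (hR k) (Finset.prod_nonneg fun i _ => hb0 k i)
    · exact le_rfl
    · norm_num
  have hc1 : ∀ k, c k ∅ = 1 := by
    intro k
    simp [hc]
  have hS : ∑ k, ∑ s : Finset (Fin n₂) with s.Nonempty, c k s ≤ B₀ * (R₂ + 1) := by
    have e1 : ∀ k, ∑ s : Finset (Fin n₂) with s.Nonempty, c k s ≤
        B₀ * (R k x₁ + R k x₁ * SS J k x₂) := by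
      intro k
      have e2 : ∑ s : Finset (Fin n₂) with s.Nonempty, c k s ≤
          R k x₁ * ∑ s : Finset (Fin n₂) with s.card ≤ m₀,
            ∏ i ∈ s, ((if i ∈ hits k x₂ then 1 else 0) + g₂ i) := by
        rw [Finset.mul_sum, Finset.sum_filter, Finset.sum_filter]
        apply Finset.sum_le_sum
        intro s _
        simp only [hc]
        have e3 : 0 ≤ R k x₁ * ∏ i ∈ s, ((if i ∈ hits k x₂ then (1:ℝ) else 0) + g₂ i) :=
          mul_nonneg (hR k) (Finset.prod_nonneg fun i _ => hb0 k i)
        by_cases hs : s.Nonempty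
        · rw [if_pos hs, if_pos hs]
        · rw [if_neg hs]
          split_ifs
          · exact e3
          · exact le_rfl
      have e3 := sum_small_le g₂ hg0 (hits k x₂) m₀
      have e4 : (1 + ((hits k x₂).card : ℝ)) ^ m₀ ≤ (1 + ((hits k x₂).card : ℝ)) ^ J :=
        pow_le_pow_right₀ (by linarith [(Nat.cast_nonneg (hits k x₂).card : (0:ℝ) ≤ _)]) hm₀
      have e5 := hits_pow_le J hJ k x₂
      have e6 : (0:ℝ) ≤ 3 * Real.exp (∑ i, g₂ i) := by positivity
      calc ∑ s : Finset (Fin n₂) with s.Nonempty, c k s ≤ _ := e2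
        _ ≤ R k x₁ * (3 * Real.exp (∑ i, g₂ i) * (1 + ((hits k x₂).card : ℝ)) ^ m₀) :=
            mul_le_mul_of_nonneg_left e3 (hR k)
        _ ≤ R k x₁ * (3 * Real.exp (∑ i, g₂ i) *
            (((J : ℝ) + 2) ^ (2 * J) * (1 + SS J k x₂))) :=
            mul_le_mul_of_nonneg_left (mul_le_mul_of_nonneg_left (e4.trans e5) e6) (hR k)
        _ = _ := by rw [hB₀]; ring
    refine (Finset.sum_le_sum fun k _ => e1 k).trans ?_
    rw [← Finset.mul_sum, Finset.sum_add_distrib]
    exact mul_le_mul_of_nonneg_left (by linarith) hB00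
  have hψ : ∀ D : Col n₂ κ, |psi g₂ D x₂| ≤
      ∏ k, ∏ i ∈ fib D k, ((if i ∈ hits k x₂ then 1 else 0) + g₂ i) := by
    intro D
    have e1 : ∏ k, ∏ i ∈ fib D k, ((if i ∈ hits k x₂ then 1 else 0) + g₂ i) =
        ∏ i, (match D i with
          | none => (1:ℝ)
          | some k => (if i ∈ hits k x₂ then 1 else 0) + g₂ i) := by
      have e2 : ∀ k, ∏ i ∈ fib D k, ((if i ∈ hits k x₂ then (1:ℝ) else 0) + g₂ i) =
          ∏ i, (if D i = some k then ((if i ∈ hits k x₂ then (1:ℝ) else 0) + g₂ i) else 1) := by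
        intro k
        unfold fib
        rw [Finset.prod_filter]
      rw [Finset.prod_congr rfl fun k _ => e2 k, Finset.prod_comm]
      refine Finset.prod_congr rfl fun i _ => ?_
      cases hD : D i with
      | none => simp
      | some l =>
        have e3 : ∀ k, (if some l = some k then ((if i ∈ hits k x₂ then (1:ℝ) else 0) + g₂ i)
            else 1) = if k = l then ((if i ∈ hits l x₂ then (1:ℝ) else 0) + g₂ i) else 1 := by
          intro k
          by_cases hk : k = l
          · subst hk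
            rw [if_pos rfl, if_pos rfl]
          · rw [if_neg hk, if_neg (fun h => hk (Option.some.inj h).symm)]
        rw [Finset.prod_congr rfl fun k _ => e3 k, Finset.prod_ite_eq', if_pos (Finset.mem_univ _)]
    rw [e1]
    unfold psi
    rw [Finset.abs_prod]
    apply Finset.prod_le_prod
    · intro i _
      exact abs_nonneg _
    · intro i _
      unfold psi1
      cases D i with
      | none => simp
      | some k =>
        have := hg0 i
        have e4 : i ∈ hits k x₂ ↔ x₂ i = some k := by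
          rw [hits, Finset.mem_filter]
          exact ⟨fun h => h.2, fun h => ⟨Finset.mem_univ _, h⟩⟩
        simp only [e4]
        split_ifs
        · rw [abs_le]; constructor <;> linarith
        · rw [abs_le]; constructor <;> linarith
  unfold V5 VV
  calc |∑ D, y D * (∏ k ∈ cols D, R k x₁) * psi g₂ D x₂|
      ≤ ∑ D, |y D * (∏ k ∈ cols D, R k x₁) * psi g₂ D x₂| := Finset.abs_sum_le_sum_abs _ _
    _ ≤ ∑ D : Col n₂ κ with (cols D).card ≤ r, ∏ k, c k (fib D k) := by
        rw [Finset.sum_filter]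
        apply Finset.sum_le_sum
        intro D _
        have hp : 0 ≤ ∏ k, c k (fib D k) := Finset.prod_nonneg fun k _ => hc0 k _
        by_cases hD : y D = 0
        · rw [hD, zero_mul, zero_mul, abs_zero]
          split_ifs
          · exact hp
          · exact le_rfl
        · obtain ⟨hD1, hD2⟩ := hsupp D hD
          rw [if_pos hD1, abs_mul, abs_mul]
          have e1 : ∏ k, c k (fib D k) = (∏ k ∈ cols D, R k x₁) *
              ∏ k, ∏ i ∈ fib D k, ((if i ∈ hits k x₂ then 1 else 0) + g₂ i) := by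
            have e2 : ∏ k ∈ cols D, R k x₁ = ∏ k, (if k ∈ cols D then R k x₁ else 1) := by
              rw [Finset.prod_ite, Finset.prod_const_one, mul_one]
              congr 1
              ext k
              simp
            rw [e2, ← Finset.prod_mul_distrib]
            refine Finset.prod_congr rfl fun k _ => ?_
            simp only [hc]
            by_cases hk : (fib D k).Nonempty
            · rw [if_pos hk, if_pos (hD2 k), if_pos (mem_cols.2 hk)]
            · rw [if_neg hk, if_neg (fun h => hk (mem_cols.1 h)),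
                Finset.not_nonempty_iff_eq_empty.1 hk]
              simp
          have e3 : 0 ≤ ∏ k ∈ cols D, R k x₁ := Finset.prod_nonneg fun k _ => hR k
          rw [e1, abs_of_nonneg e3]
          calc |y D| * (∏ k ∈ cols D, R k x₁) * |psi g₂ D x₂|
              ≤ 1 * (∏ k ∈ cols D, R k x₁) * |psi g₂ D x₂| :=
                mul_le_mul_of_nonneg_right (mul_le_mul_of_nonneg_right (hy D) e3) (abs_nonneg _)
            _ ≤ 1 * (∏ k ∈ cols D, R k x₁) * _ :=
                mul_le_mul_of_nonneg_left (hψ D) (by rw [one_mul]; exact e3)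
            _ = _ := by rw [one_mul]
    _ ≤ 3 * (1 + B₀ * (R₂ + 1)) ^ r := sum_fib_le c hc0 hc1 r _ hS

end Pool.Agent.Y831.RC
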